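import Pool.Agent.K9h16.MT.Kth2

/-!
All the equivariant homomorphisms into the group of the classes vanish.
-/

set_option autoImplicit false
set_option linter.all false

open Polynomial IsDedekindDomain WeierstrassCurve WeierstrassCurve.Affine
open scoped Classical Pointwise

namespace Pool.Agent.K9h16.MT

open Pool.Agent.TH115.GD Pool.Agent.K9h16.PT Pool.Agent.K9h16.QT Pool.Agent.R939.EI

section push

variable {k k' K F : Type} [Field k] [Field k'] [Algebra k k'] [Field K] [Algebra k[X] K]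
    [Field F] [Algebra k'[X] F] [IsFractionRing k'[X] F] [Algebra K F]
    (hT : IsTower k k' K F) {W W' : WeierstrassCurve K} (φ : NH W W') (ψ : NH W' W)
    {H : Subgroup (Sep F ≃ₐ[K] Sep F)} (hN : Preserves K F (Sep F)) (hH : H.Normal)

/-- The image of a class. -/
noncomputable def pu (k' : Type) [Field k'] [Algebra k'[X] F] [IsFractionRing k'[X] F]
    (H : Subgroup (Sep F ≃ₐ[K] Sep F)) : UU k' W H →+ UU k' W' H where
  toFun c := ⟨push φ c.1, pc_push φ c.2⟩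
  map_zero' := by
    apply Subtype.ext
    funext n σ
    exact map_zero _
  map_add' c c' := Subtype.ext (push_add φ c.1 c'.1)

theorem pu_nul : NN k' W H ≤ (NN k' W' H).comap (pu φ k' H) := fun c hc => nul_push φ hc

/-- The map between the groups of the classes. -/
noncomputable def pq (k' : Type) [Field k'] [Algebra k'[X] F] [IsFractionRing k'[X] F]
    (H : Subgroup (Sep F ≃ₐ[K] Sep F)) : (UU k' W H ⧸ NN k' W H) →+ (UU k' W' H ⧸ NN k' W' H) :=
  QuotientAddGroup.map _ _ (pu φ k' H) (pu_nul φ)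

theorem pq_mk (c : UU k' W H) : pq φ k' H (QuotientAddGroup.mk c) = QuotientAddGroup.mk (pu φ k' H c) :=
  rfl

theorem pq_rho (τ : Sep F ≃ₐ[K] Sep F) (v : UU k' W H ⧸ NN k' W H) :
    pq φ k' H (rho hT hN hH τ v) = rho hT hN hH τ (pq φ k' H v) := by
  obtain ⟨c, rfl⟩ := QuotientAddGroup.mk_surjective v
  rw [rho_mk, pq_mk, pq_mk, rho_mk]
  congr 1
  exact Subtype.ext (push_TA φ hN τ c.1).symm

theorem pq_pq (h2 : ∀ P : Pt W (Sep F), ψ.f (Sep F) (φ.f (Sep F) P) = P + P)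
    (v : UU k' W H ⧸ NN k' W H) : pq ψ k' H (pq φ k' H v) = (2 : ℤ) • v := by
  obtain ⟨c, rfl⟩ := QuotientAddGroup.mk_surjective v
  rw [pq_mk, pq_mk, two_zsmul, ← QuotientAddGroup.mk_add]
  congr 1
  exact Subtype.ext (push_push φ ψ h2 c.1)

theorem pq_inj (hF : NoFour W F) (h2 : ∀ P : Pt W (Sep F), ψ.f (Sep F) (φ.f (Sep F) P) = P + P)
    {v w : UU k' W H ⧸ NN k' W H} (h : pq φ k' H v = pq φ k' H w) : v = w := by
  have h1 : (2 : ℤ) • (v - w) = 0 := by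
    rw [← pq_pq φ ψ h2, map_sub, h, sub_self, map_zero]
  exact eq_of_sub_eq_zero (q_htf (k' := k') hF _ h1)

variable {U : Type} [AddCommGroup U] {a : (Sep F ≃ₐ[K] Sep F) → (U →+ U)}
  {H0 : Subgroup (Sep F ≃ₐ[K] Sep F)}

/-- The descent of an equivariant function. -/
theorem step (hF : NoFour W F) (h2 : ∀ P : Pt W (Sep F), ψ.f (Sep F) (φ.f (Sep F) P) = P + P)
    {f : U → UU k' W' H ⧸ NN k' W' H} (hf : f ∈ Eqv (rho hT hN hH) a H0)
    (hd : ∀ x, ∃ v, pq φ k' H v = f x) :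
    ∃ f' ∈ Eqv (V := UU k' W H ⧸ NN k' W H) (rho hT hN hH) a H0, ∀ x, pq φ k' H (f' x) = f x := by
  choose f' hf' using hd
  refine ⟨f', ⟨fun x y => ?_, fun g hg x => ?_⟩, hf'⟩
  · apply pq_inj φ ψ hF h2
    rw [map_add, hf', hf', hf', hf.1]
  · apply pq_inj φ ψ hF h2
    rw [hf', pq_rho hT φ hN hH, hf', hf.2 g hg]

end push

section tow

variable {k k' K F : Type} [Field k] [Field k'] [Algebra k k'] [Field K] [Algebra k[X] K]
    [Field F] [Algebra k'[X] F] [IsFractionRing k'[X] F] [Algebra K F]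
    (hT : IsTower k k' K F) {a b : k[X]} (hS : Sd a b)
  (hN : Preserves K F (Sep F)) {H : Subgroup (Sep F ≃ₐ[K] Sep F)} (hH : H.Normal)
  {U : Type} [AddCommGroup U] {ac : (Sep F ≃ₐ[K] Sep F) → (U →+ U)}
  {H0 : Subgroup (Sep F ≃ₐ[K] Sep F)} (hH0 : H0.Normal) (hfin : H0.FiniteIndex)
  (a_one : ∀ x, ac 1 x = x) (a_mul : ∀ g h x, ac (g * h) x = ac g (ac h x))
  (hmodU : ∀ g x, ∃ y, ac g x - x = (2 : ℤ) • y)

include hT hS hN hH hH0 hfin a_one a_mul hmodU in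
/-- One step for an equivariant function. -/
theorem dstep [NeZero (2 : K)] (hsw : SwG k' b) (hpure : PureG k' b (a ^ 2 - 4 * b))
    (h5 : Five k' b) (h5' : Five k' (a ^ 2 - 4 * b)) {a₁ b₁ u u' : K}
    (D1 : Dat (algebraMap k[X] K a) (algebraMap k[X] K b) a₁ b₁ u)
    (D2 : Dat a₁ b₁ (algebraMap k[X] K a) (algebraMap k[X] K b) u') (huu : u * u' = 2)
    (hF' : NoFour (crvT a₁ b₁) F)
    {f : U → UU k' (Wc K a b) H ⧸ NN k' (Wc K a b) H} (hf : f ∈ Eqv (rho hT hN hH) ac H0) :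
    ∃ f' ∈ Eqv (V := UU k' (crvT a₁ b₁) H ⧸ NN k' (crvT a₁ b₁) H) (rho hT hN hH) ac H0,
      ∀ x, pq (isoN D2) k' H (f' x) = f x := by
  haveI := hT.sep
  haveI := hT.fracK
  obtain ⟨α, γ, hR⟩ := exists_rts hT hS
  have hF := noFour_Wc (K := K) (F := F) (k' := k') hT hS hR
  have h21 : ∀ P : Pt (crvT a₁ b₁) (Sep F),
      (isoN D1).f (Sep F) ((isoN D2).f (Sep F) P) = P + P := fun P =>
    isoH_dbl (Sep F) D2 D1 (by rw [mul_comm]; exact huu) P
  refine step hT (isoN D2) (isoN D1) hN hH hF' h21 hf (fun x => ?_)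
  have h8 := val_S8 (q_one hT hN hH) (q_mul hT hN hH) a_one a_mul (q_htf (k' := k') hF)
    (q_hsep (k' := k')) hmodU hH0 hfin hf x
  obtain ⟨c, hc⟩ := QuotientAddGroup.mk_surjective (f x)
  rw [← hc] at h8 ⊢
  obtain ⟨e, he, hen⟩ := desc hT hS D1 D2 huu c.2 (fun g hg =>
    kth8 hT hS hN hH hsw hpure h5 h5' c.2 h8 hg)
  refine ⟨QuotientAddGroup.mk ⟨e, he⟩, ?_⟩
  rw [pq_mk]
  exact (mk_eq.2 hen).symm

include hT hS hN hH hH0 hfin a_one a_mul hmodU in
/-- **The equivariant homomorphisms vanish.** -/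
theorem hom_zero (hsw : SwG k' b) (hsw' : SwG k' (a ^ 2 - 4 * b))
    (hpure : PureG k' b (a ^ 2 - 4 * b)) (h5 : Five k' b) (h5' : Five k' (a ^ 2 - 4 * b))
    {f : U → UU k' (Wc K a b) H ⧸ NN k' (Wc K a b) H} (hf : f ∈ Eqv (rho hT hN hH) ac H0) (x : U) :
    f x = 0 := by
  haveI := hT.sep
  haveI := hT.fracK
  haveI : IsSepClosed k' := IsSepClosure.sep_closed k
  haveI : NeZero (2 : K) := ⟨tt hS.h2⟩
  have h2' : (2 : k') ≠ 0 := two_k' hS.h2
  have hS' := hS.dual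
  have D1 := dat1 (K := K) hS
  have D2 := dat2 (K := K) hS
  obtain ⟨α, γ, hR⟩ := exists_rts hT hS
  obtain ⟨α', γ', hR'⟩ := exists_rts hT hS'
  have hF := noFour_Wc (K := K) (F := F) (k' := k') hT hS hR
  have hF' := noFour_Wc (K := K) (F := F) (k' := k') hT hS' hR'
  have h12 : ∀ P : Pt (Wc K a b) (Sep F),
      (isoN D2).f (Sep F) ((isoN D1).f (Sep F) P) = P + P := fun P =>
    isoH_dbl (Sep F) D1 D2 (one_mul 2) P
  have hpure' : PureG k' (a ^ 2 - 4 * b) ((-2 * a) ^ 2 - 4 * (a ^ 2 - 4 * b)) :=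
    (hpure.symm h2' hS.cop).congr (fun θ => Iff.rfl) (fun θ => root_dual hS.h2)
  have h5'' : Five k' ((-2 * a) ^ 2 - 4 * (a ^ 2 - 4 * b)) := by
    intro x y
    obtain ⟨z1, z2, z3, r1, r2, r3, h⟩ := h5 x y
    exact ⟨z1, z2, z3, (root_dual hS.h2).2 r1, (root_dual hS.h2).2 r2, (root_dual hS.h2).2 r3, h⟩
  have key : ∀ f : U → UU k' (Wc K a b) H ⧸ NN k' (Wc K a b) H, f ∈ Eqv (rho hT hN hH) ac H0 →
      ∃ g ∈ Eqv (V := UU k' (Wc K a b) H ⧸ NN k' (Wc K a b) H) (rho hT hN hH) ac H0,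
        ∀ x, f x = (2 : ℤ) • g x := by
    intro f hf
    obtain ⟨f', hf', e'⟩ := dstep hT hS hN hH hH0 hfin a_one a_mul hmodU hsw hpure h5 h5' D1 D2
      (one_mul 2) hF' hf
    obtain ⟨g, hg, e⟩ := dstep hT hS' hN hH hH0 hfin a_one a_mul hmodU hsw' hpure' h5' h5'' D2 D1
      (mul_one 2) hF hf'
    refine ⟨g, hg, fun x => ?_⟩
    rw [← e', ← e, pq_pq (isoN D1) (isoN D2) h12]
  have hpow : ∀ (j : ℕ) (f : U → UU k' (Wc K a b) H ⧸ NN k' (Wc K a b) H),
      f ∈ Eqv (rho hT hN hH) ac H0 → ∃ w, f x = (2 : ℤ) ^ j • w := by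
    intro j
    induction j with
    | zero => exact fun f _ => ⟨f x, by rw [pow_zero, one_smul]⟩
    | succ j ih =>
      intro f hf
      obtain ⟨g, hg, e⟩ := key f hf
      obtain ⟨w, hw⟩ := ih g hg
      exact ⟨w, by rw [e, hw, smul_smul, ← pow_succ']⟩
  exact q_hsep _ (fun j => hpow j f hf)

end tow

end Pool.Agent.K9h16.MT
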