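import Pool.Agent.K9h16.MT.Van2
import Pool.Agent.K9h16.QT.FinT

/-!
The homomorphisms from a representation of the Galois group to the classes, in terms of cocycles.
-/

set_option autoImplicit false
set_option linter.all false

open Polynomial IsDedekindDomain WeierstrassCurve WeierstrassCurve.Affine
open scoped Classical Pointwise

namespace Pool.Agent.K9h16.MT

open Pool.Agent.TH115.GD Pool.Agent.K9h16.PT Pool.Agent.K9h16.QT Pool.Agent.R939.EI

section lifts

variable {k k' K F : Type} [Field k] [Field k'] [Algebra k k'] [Field K] [Algebra k[X] K]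
    [Field F] [Algebra k'[X] F] [IsFractionRing k'[X] F] [Algebra K F]

theorem lifts_uniq {s s' : k' ≃ₐ[k] k'} {τ : Sep F ≃ₐ[K] Sep F} (h : Lifts s τ)
    (h' : Lifts s' τ) : s = s' := by
  ext x
  apply cst_inj (F := F)
  show algebraMap F (Sep F) (cst k' F (s x)) = algebraMap F (Sep F) (cst k' F (s' x))
  rw [← lifts_cst h, ← lifts_cst h']

theorem lifts_one : Lifts (1 : k' ≃ₐ[k] k') (1 : Sep F ≃ₐ[K] Sep F) := by
  intro p
  have e : ((1 : k' ≃ₐ[k] k') : k' →+* k') = RingHom.id k' := rfl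
  rw [e, Polynomial.map_id]
  rfl

end lifts

section glue

variable {k k' : Type} [Field k] [Field k'] [Algebra k k'] [IsSepClosure k k']
    {L : IntermediateField k k'} [FiniteDimensional k L]
    {K F : Type} [Field K] [Algebra L[X] K]
    [Field F] [Algebra k'[X] F] [IsFractionRing k'[X] F] [Algebra K F]
    (hT : IsTower L k' K F)

include hT in
/-- The vanishing in terms of cocycles. -/
theorem glue {M : IntermediateField k k'} [FiniteDimensional k M] {a b : k[X]}
    (hG : GC (a.map (algebraMap k M)) (b.map (algebraMap k M))) {δ : L} (hδ : δ ≠ 0)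
    {U : Type} [AddCommGroup U] [DistribMulAction (k' ≃ₐ[k] k') U]
    (hU : ∀ s : k' ≃ₐ[k] k', (∀ z ∈ M, s z = z) → ∀ x : U, ∃ y : U, s • x - x = y + y)
    {h : U → Cc (crvT (algebraMap L[X] K (C δ * a.map (algebraMap k L)))
      (algebraMap L[X] K (C (δ ^ 2) * b.map (algebraMap k L)))) F}
    (htc : ∀ x, IsTC _ (h x)) (hloc : ∀ x n, LocallyTrivial k' _ (h x n))
    (hadd : ∀ x y, Nul _ (h (x + y) - (h x + h y)))
    (hequ : ∀ (s : k' ≃ₐ[L] k') (τ : Sep F ≃ₐ[K] Sep F), Lifts s τ →
      ∀ (x : U) (n : ℕ), ∃ R : Pt _ (Sep F), 2 ^ (n + 1) • R = 0 ∧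
        ∀ σ σ' : Sep F ≃ₐ[F] Sep F, (∀ z, τ (σ' z) = σ (τ z)) →
          h ((s.restrictScalars k : k' ≃ₐ[k] k') • x) n σ - act _ (ak τ) (h x n σ') =
            act _ (rs K σ) R - R) (x : U) :
    Nul _ (h x) := by
  haveI := hT.fracK
  haveI : IsSepClosed k' := IsSepClosure.sep_closed k
  haveI : Algebra.IsSeparable k k' := IsSepClosure.separable
  haveI : IsGalois k k' := IsSepClosure.isGalois
  haveI : Algebra.IsSeparable M k' := Algebra.isSeparable_tower_top_of_isSeparable k M k'
  haveI : IsSepClosure M k' := ⟨inferInstance, inferInstance⟩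
  haveI : IsGalois M k' := IsSepClosure.isGalois
  obtain ⟨KM, _, _, _, hTM⟩ := mk_tower M k' F
  haveI := hTM.fracK
  have hS := hG.S
  have h2k' : (2 : k') ≠ 0 := two_k' hS.h2
  haveI : NeZero ((2 : ℕ) : k') := ⟨by rw [Nat.cast_ofNat]; exact h2k'⟩
  obtain ⟨ρ, hρ⟩ : ∃ ρ : k', ρ ^ 2 = algebraMap L k' δ⁻¹ := IsSepClosed.exists_pow_nat_eq _ 2
  have hδ' : algebraMap L k' δ ≠ 0 := (_root_.map_ne_zero _).2 hδ
  have hρ0 : ρ ≠ 0 := by
    rintro rfl
    rw [zero_pow two_ne_zero, map_inv₀] at hρ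
    exact inv_ne_zero hδ' hρ.symm
  -- the transport
  have htr : IsTrT (F := F) (algebraMap L[X] K (C δ * a.map (algebraMap k L)))
      (algebraMap L[X] K (C (δ ^ 2) * b.map (algebraMap k L)))
      (algebraMap M[X] KM (a.map (algebraMap k M))) (algebraMap M[X] KM (b.map (algebraMap k M)))
      (cst k' F ρ) := by
    have e0 : ∀ (p : k[X]) (x : k'), x ≠ 0 → algebraMap KM F (algebraMap M[X] KM
        (p.map (algebraMap k M))) =
        cst k' F x⁻¹ * algebraMap k'[X] F (C x * p.map (algebraMap k k')) := by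
      intro p x hx
      rw [hTM.map, Polynomial.map_map, ← IsScalarTower.algebraMap_eq, map_mul, ← mul_assoc]
      have e1 : cst k' F x⁻¹ * algebraMap k'[X] F (C x) = 1 := by
        have : cst k' F x⁻¹ = algebraMap k'[X] F (C x⁻¹) := rfl
        rw [this, ← map_mul, ← C_mul, inv_mul_cancel₀ hx, C_1, map_one]
      rw [e1, one_mul]
    refine ⟨(_root_.map_ne_zero _).2 hρ0, ?_, ?_⟩
    · rw [e0 a _ hδ', hT.map, Polynomial.map_mul, map_C, Polynomial.map_map,
        ← IsScalarTower.algebraMap_eq, ← map_pow, hρ, map_inv₀ (algebraMap L k')]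
    · have e4 : ρ ^ 4 = algebraMap L k' (δ ^ 2)⁻¹ := by
        have : ρ ^ 4 = (ρ ^ 2) ^ 2 := by ring
        rw [this, hρ, ← map_pow, inv_pow]
      rw [e0 b _ (pow_ne_zero 2 hδ'), hT.map, Polynomial.map_mul, map_C, Polynomial.map_map,
        ← IsScalarTower.algebraMap_eq, ← map_pow (cst k' F), e4, map_inv₀ (algebraMap L k'),
        map_pow (algebraMap L k')]
  have hN : Preserves KM F (Sep F) := preserves hTM.map
  have hbot : (⊥ : Subgroup (Sep F ≃ₐ[KM] Sep F)).Normal := inferInstance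
  -- the classes
  have hpc : ∀ x, PC k' _ (⊥ : Subgroup (Sep F ≃ₐ[KM] Sep F)) (trCT htr (h x)) := by
    intro x
    refine ⟨tc_tr htr (htc x), fun n => lt_tr htr (hloc x n), fun τ hτ => ?_⟩
    rw [Subgroup.mem_bot] at hτ
    subst hτ
    refine ⟨0, fun n => 0, ⟨rfl, fun n => smul_zero _⟩, fun n σ σ' hσ => ?_⟩
    have e : σ' = σ := AlgEquiv.ext fun z => hσ z
    have e1 : ak (1 : Sep F ≃ₐ[KM] Sep F) = AlgHom.id KM (Sep F) := rfl
    have e2 : act (crvT (algebraMap M[X] KM (a.map (algebraMap k M)))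
      (algebraMap M[X] KM (b.map (algebraMap k M)))) (AlgHom.id KM (Sep F))
      (trCT htr (h x) n σ) = trCT htr (h x) n σ := Point.map_id _
    rw [e, e1, e2, sub_self, smul_zero, map_zero, sub_zero]
  -- the action
  choose res hres using exists_restr hTM
  let ϑ : (k' ≃ₐ[M] k') → (k' ≃ₐ[k] k') := fun s => s.restrictScalars k
  obtain ⟨ac, hac⟩ : ∃ ac : (Sep F ≃ₐ[KM] Sep F) → (U →+ U),
      ∀ τ x, ac τ x = (ϑ (res τ)) • x :=
    ⟨fun τ => DistribSMul.toAddMonoidHom U (ϑ (res τ)), fun τ x => rfl⟩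
  have a_one : ∀ x, ac 1 x = x := by
    intro x
    have e : res 1 = 1 := lifts_uniq (hres 1) lifts_one
    rw [hac, e]
    exact one_smul _ x
  have a_mul : ∀ g g' x, ac (g * g') x = ac g (ac g' x) := by
    intro g g' x
    have e : res (g * g') = res g * res g' := lifts_uniq (hres _) ((hres g).mul (hres g'))
    rw [hac, hac, hac, e, ← mul_smul]
    rfl
  have hmodU : ∀ g x, ∃ y, ac g x - x = (2 : ℤ) • y := by
    intro g x
    obtain ⟨y, hy⟩ := hU (ϑ (res g)) (fun z hz => (res g).commutes ⟨z, hz⟩) x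
    exact ⟨y, by rw [hac, hy, two_zsmul]⟩
  -- the field
  obtain ⟨S, hSS⟩ : ∃ S : Set k', S = {ρ} ∪ Set.range
    (fun i => ((Module.finBasis k L i : L) : k')) := ⟨_, rfl⟩
  haveI : Finite S := by
    rw [hSS]
    exact (Set.finite_singleton _).union (Set.finite_range _)
  obtain ⟨M1, hM1⟩ : ∃ M1 : FiniteGaloisIntermediateField M k',
    M1 = FiniteGaloisIntermediateField.adjoin M S := ⟨_, rfl⟩
  have hSM : ∀ z ∈ S, z ∈ M1.toIntermediateField := by
    rw [hM1]
    exact fun z hz => FiniteGaloisIntermediateField.subset_adjoin M S hz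
  have hρM : ρ ∈ M1.toIntermediateField := hSM _ (by rw [hSS]; exact Or.inl rfl)
  have hLM : ∀ z ∈ L, z ∈ M1.toIntermediateField := by
    intro z hz
    have e : z = ((∑ i, (Module.finBasis k L).repr ⟨z, hz⟩ i • Module.finBasis k L i : L) : k') := by
      rw [(Module.finBasis k L).sum_repr]
    rw [e, IntermediateField.coe_sum]
    refine sum_mem fun i _ => ?_
    rw [IntermediateField.coe_smul, Algebra.smul_def, IsScalarTower.algebraMap_apply k M k']
    exact mul_mem (M1.toIntermediateField.algebraMap_mem _)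
      (hSM _ (by rw [hSS]; exact Or.inr ⟨i, rfl⟩))
  haveI : FiniteDimensional M M1.toIntermediateField := M1.finiteDimensional
  haveI : IsGalois M M1.toIntermediateField := M1.isGalois
  haveI : Normal M M1.toIntermediateField := inferInstance
  -- the equivariant function
  obtain ⟨f, hf⟩ : ∃ f : U → UU k' (Wc KM (a.map (algebraMap k M)) (b.map (algebraMap k M)))
      (⊥ : Subgroup (Sep F ≃ₐ[KM] Sep F)) ⧸ NN k' _ _, ∀ x, f x =
        QuotientAddGroup.mk ⟨trCT htr (h x), hpc x⟩ := ⟨_, fun x => rfl⟩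
  have hfe : f ∈ Eqv (rho hTM hN hbot) ac (HM k' KM F (M1.toIntermediateField : Set k')) := by
    refine ⟨fun x y => ?_, fun g hg x => ?_⟩
    · rw [hf, hf, hf, ← QuotientAddGroup.mk_add]
      refine mk_eq.2 ?_
      have h1 := nul_tr htr (hadd x y)
      have e : trCT htr (h (x + y) - (h x + h y)) =
          trCT htr (h (x + y)) - (trCT htr (h x) + trCT htr (h y)) := by
        funext n σ
        show PhiT htr (Sep F) (h (x + y) n σ - (h x n σ + h y n σ)) = _
        rw [map_sub, map_add]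
        rfl
      rw [e] at h1
      exact h1
    · rw [hf, hf, rho_mk]
      refine mk_eq.2 ?_
      have hfx : ∀ z ∈ M1.toIntermediateField, res g z = z := (lifts_mem_HM (hres g) _).1 hg
      have hfix : ∀ p : L[X], g (algebraMap K (Sep F) (algebraMap L[X] K p)) =
          algebraMap K (Sep F) (algebraMap L[X] K p) := by
        intro p
        rw [IsScalarTower.algebraMap_apply K F (Sep F), hT.map, hres g, Polynomial.map_map]
        congr 3
        ext z
        exact hfx _ (hLM z z.2)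
      obtain ⟨τ, hτ⟩ : ∃ τ : Sep F ≃ₐ[K] Sep F, ∀ z, τ z = g z :=
        ⟨AlgEquiv.ofRingEquiv (f := g.toRingEquiv) (by
          intro z
          obtain ⟨n, d, hd, rfl⟩ := IsFractionRing.div_surjective (A := L[X]) z
          show g _ = _
          rw [map_div₀, map_div₀, hfix, hfix]), fun z => rfl⟩
      obtain ⟨s, hs⟩ : ∃ s : k' ≃ₐ[L] k', ∀ z, s z = res g z :=
        ⟨AlgEquiv.ofRingEquiv (f := (res g).toRingEquiv) (fun z => hfx _ (hLM z z.2)),
          fun z => rfl⟩
      have hsr : (s.restrictScalars k : k' ≃ₐ[k] k') = ϑ (res g) := AlgEquiv.ext hs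
      have hlift : Lifts s τ := by
        intro p
        have e : ((res g : k' ≃ₐ[M] k') : k' →+* k') = ((s : k' ≃ₐ[L] k') : k' →+* k') :=
          RingHom.ext fun z => (hs z).symm
        rw [hτ, hres g p, e]
      intro n
      obtain ⟨R, hR, e⟩ := hequ s τ hlift x n
      refine ⟨PhiT htr (Sep F) R, by rw [← map_nsmul, hR, map_zero], fun σ => ?_⟩
      show PhiT htr (Sep F) (h (ac g x) n σ) - act _ (ak g) (PhiT htr (Sep F) (h x n (cj hN g σ))) =
        act _ (rs KM σ) (PhiT htr (Sep F) R) - PhiT htr (Sep F) R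
      have h2 := PhiT_semi htr τ g hτ (ε := 1) (by
        rw [hτ, Units.val_one, Int.cast_one, one_mul]
        exact hg ρ hρM) (h x n (cj hN g σ))
      rw [Units.val_one, one_smul] at h2
      rw [h2, hac, ← hsr, ← map_sub, e σ (cj hN g σ) (fun z => by
        rw [hτ, hτ]
        exact cj_spec hN g σ z), map_sub, PhiT_rs]
  have hz := hom_zero hTM hS hN hbot (HM_normal hTM M1.toIntermediateField)
    (HM_fin hTM M1.toIntermediateField) a_one a_mul hmodU
    (swF_of hS.sb hS.sd hG.fb hG.db).swG (swF_of hS.sd hS.sb hG.fd hG.bd).swG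
    (pureG_of h2k' hS.sb hS.sd hS.cop hG.fb hG.fd hG.db hG.bd hG.mn)
    (five_of hS.sb hG.nb) (five_of hS.sd hG.nd) hfe x
  rw [hf, QuotientAddGroup.eq_zero_iff] at hz
  exact nul_tr' htr hz

end glue

end Pool.Agent.K9h16.MT
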