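import Pool.Agent.K9h16.QT.Quo

/-!
Equivariant homomorphisms from a group on which the Galois group acts trivially modulo two.
-/

set_option autoImplicit false
set_option linter.all false

namespace Pool.Agent.K9h16.MT

open Pool.Agent.K9h16.PT Pool.Agent.K9h16.QT

section grp

variable {G V U : Type} [Group G] [AddCommGroup V] [AddCommGroup U] (ρ : G → (V →+ V))
  (a : G → (U →+ U)) (H : Subgroup G)

/-- The additive functions which commute with `H`. -/
def Eqv : AddSubgroup (U → V) where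
  carrier := {f | (∀ x y, f (x + y) = f x + f y) ∧ ∀ g ∈ H, ∀ x, f (a g x) = ρ g (f x)}
  add_mem' := by
    rintro f f' ⟨h1, h2⟩ ⟨h3, h4⟩
    refine ⟨fun x y => ?_, fun g hg x => ?_⟩
    · show f (x + y) + f' (x + y) = f x + f' x + (f y + f' y)
      rw [h1, h3]; abel
    · show f (a g x) + f' (a g x) = ρ g (f x + f' x)
      rw [h2 g hg, h4 g hg, map_add]
  zero_mem' := ⟨fun x y => (add_zero _).symm, fun g _ x => (map_zero _).symm⟩
  neg_mem' := by
    rintro f ⟨h1, h2⟩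
    refine ⟨fun x y => ?_, fun g hg x => ?_⟩
    · show -f (x + y) = -f x + -f y
      rw [h1]; abel
    · show -f (a g x) = ρ g (-f x)
      rw [h2 g hg, map_neg]

variable {ρ a H}

theorem eqv_zero {f : U → V} (hf : f ∈ Eqv ρ a H) : f 0 = 0 := by
  have h := hf.1 0 0
  rw [add_zero] at h
  exact left_eq_add.1 h

theorem eqv_smul {f : U → V} (hf : f ∈ Eqv ρ a H) (n : ℤ) (x : U) : f (n • x) = n • f x := by
  let φ : U →+ V := { toFun := f, map_zero' := eqv_zero hf, map_add' := hf.1 }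
  exact map_zsmul φ n x

variable (rho_one : ∀ v, ρ 1 v = v) (rho_mul : ∀ g h v, ρ (g * h) v = ρ g (ρ h v))
  (a_one : ∀ x, a 1 x = x) (a_mul : ∀ g h x, a (g * h) x = a g (a h x))
  (htf : ∀ v : V, (2 : ℤ) • v = 0 → v = 0)
  (hsep : ∀ v : V, (∀ j : ℕ, ∃ w, v = (2 : ℤ) ^ j • w) → v = 0)
  (hmodU : ∀ g x, ∃ y, a g x - x = (2 : ℤ) • y) (hH : H.Normal)

include hmodU a_mul in
theorem a_four (w : G) (x : U) : ∃ y, a (w * w) x - x = (4 : ℤ) • y := by
  obtain ⟨y, hy⟩ := hmodU w x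
  obtain ⟨z, hz⟩ := hmodU w y
  have e1 : a w x = x + (2 : ℤ) • y := by rw [← hy]; abel
  have e2 : a w y = y + (2 : ℤ) • z := by rw [← hz]; abel
  refine ⟨y + z, ?_⟩
  rw [a_mul, e1, map_add, map_zsmul, e1, e2]
  module

include hmodU a_mul in
theorem a_eight (w : G) (x : U) : ∃ y, a (w * w * (w * w)) x - x = (8 : ℤ) • y := by
  obtain ⟨y, hy⟩ := a_four a_mul hmodU w x
  obtain ⟨z, hz⟩ := a_four a_mul hmodU w y
  have e1 : a (w * w) x = x + (4 : ℤ) • y := by rw [← hy]; abel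
  have e2 : a (w * w) y = y + (4 : ℤ) • z := by rw [← hz]; abel
  refine ⟨y + (2 : ℤ) • z, ?_⟩
  rw [a_mul, e1, map_add, map_zsmul, e1, e2]
  module

include rho_mul a_mul a_one hH in
theorem eqv_conj {f : U → V} (hf : f ∈ Eqv ρ a H) (g : G) :
    (fun x => ρ g (f (a g⁻¹ x))) ∈ Eqv ρ a H := by
  refine ⟨fun x y => ?_, fun t ht x => ?_⟩
  · show ρ g (f (a g⁻¹ (x + y))) = _
    rw [map_add, hf.1, map_add]
  · show ρ g (f (a g⁻¹ (a t x))) = ρ t (ρ g (f (a g⁻¹ x)))
    have h1 : a g⁻¹ (a t x) = a (g⁻¹ * t * g) (a g⁻¹ x) := by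
      rw [← a_mul, ← a_mul]
      congr 1
      group
    have h2 : g⁻¹ * t * g ∈ H := by
      have := hH.conj_mem t ht g⁻¹
      rwa [inv_inv] at this
    rw [h1, hf.2 _ h2, ← rho_mul, ← rho_mul]
    congr 1
    group

/-- The action of the group on the equivariant functions. -/
def ract (g : G) : Eqv ρ a H →+ Eqv ρ a H where
  toFun f := ⟨fun x => ρ g (f.1 (a g⁻¹ x)), eqv_conj rho_mul a_one a_mul hH f.2 g⟩
  map_zero' := by
    apply Subtype.ext
    funext x
    exact map_zero _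
  map_add' f f' := by
    apply Subtype.ext
    funext x
    exact map_add _ _ _

include rho_one rho_mul a_one a_mul htf hsep hmodU hH in
/-- The square of an element which acts trivially modulo two commutes with the equivariant functions. -/
theorem eqv_fix (hfin : H.FiniteIndex) {u : G} (hu : ∀ v, ∃ w, ρ u v - v = (2 : ℤ) • w)
    {f : U → V} (hf : f ∈ Eqv ρ a H) (x : U) : f (a (u * u) x) = ρ (u * u) (f x) := by
  have htf4 : ∀ v : V, (4 : ℤ) • v = 0 → v = 0 := fun v h => htf _ (htf _ (by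
    rw [smul_smul]
    exact h))
  have hu2 : ∀ v, ∃ w, ρ (u * u) v - v = (4 : ℤ) • w := by
    intro v
    have h1 : Cg 1 (ρ u) := fun v => by
      obtain ⟨w, hw⟩ := hu v
      exact ⟨w, by rw [hw, pow_one]⟩
    obtain ⟨w, hw⟩ := h1.sq htf le_rfl v
    refine ⟨w, ?_⟩
    rw [rho_mul]
    exact hw
  have key := fin_one (V := Eqv ρ a H) (ract (H := H) rho_mul a_one a_mul hH) (g := u * u)
    (fun v => by
      apply Subtype.ext
      funext x
      show ρ 1 (v.1 (a 1⁻¹ x)) = v.1 x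
      rw [rho_one, inv_one, a_one])
    (fun g h v => by
      apply Subtype.ext
      funext x
      show ρ (g * h) (v.1 (a (g * h)⁻¹ x)) = ρ g (ρ h (v.1 (a h⁻¹ (a g⁻¹ x))))
      rw [rho_mul, mul_inv_rev, a_mul])
    (fun v hv => by
      apply Subtype.ext
      funext x
      exact htf _ (congrFun (congrArg Subtype.val hv) x))
    (fun v hv => by
      apply Subtype.ext
      funext x
      refine hsep _ (fun j => ?_)
      obtain ⟨w, hw⟩ := hv j
      exact ⟨w.1 x, congrFun (congrArg Subtype.val hw) x⟩)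
    (fun v => by
      have h1 : ∀ x, ∃ y, ρ (u * u) (v.1 (a (u * u)⁻¹ x)) - v.1 x = (4 : ℤ) • y := by
        intro x
        obtain ⟨y, hy⟩ : ∃ y, a (u * u)⁻¹ x - x = (4 : ℤ) • y := by
          rw [mul_inv_rev]
          exact a_four a_mul hmodU u⁻¹ x
        obtain ⟨w, hw⟩ := hu2 (v.1 x)
        have e1 : a (u * u)⁻¹ x = x + (4 : ℤ) • y := by rw [← hy]; abel
        have e2 : ρ (u * u) (v.1 x) = v.1 x + (4 : ℤ) • w := by rw [← hw]; abel
        refine ⟨w + ρ (u * u) (v.1 y), ?_⟩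
        rw [e1, v.2.1, eqv_smul v.2, map_add, map_zsmul, e2, smul_add]
        abel
      choose w hw using h1
      obtain ⟨d, hd⟩ : ∃ d, d = ract (H := H) rho_mul a_one a_mul hH (u * u) v - v := ⟨_, rfl⟩
      have hdw : ∀ x, d.1 x = (4 : ℤ) • w x := fun x => by rw [hd]; exact hw x
      refine ⟨⟨w, ⟨fun x y => ?_, fun g hg x => ?_⟩⟩, ?_⟩
      · apply eq_of_sub_eq_zero
        apply htf4
        rw [smul_sub, smul_add, ← hdw, ← hdw, ← hdw, d.2.1, sub_self]
      · apply eq_of_sub_eq_zero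
        apply htf4
        rw [smul_sub, ← hdw, ← map_zsmul, ← hdw, d.2.2 g hg, sub_self]
      · rw [← hd]
        apply Subtype.ext
        funext x
        rw [hdw]
        show (4 : ℤ) • w x = (2 : ℤ) ^ 2 • w x
        norm_num)
    (m := H.index) (Nat.pos_of_ne_zero hfin.index_ne_zero)
    (fun v => by
      apply Subtype.ext
      funext x
      show ρ ((u * u) ^ H.index) (v.1 (a ((u * u) ^ H.index)⁻¹ x)) = v.1 x
      have h3 : (u * u) ^ H.index ∈ H := Subgroup.pow_index_mem H _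
      rw [v.2.2 _ (H.inv_mem h3), ← rho_mul, mul_inv_cancel, rho_one])
    ⟨f, hf⟩
  have h5 : ρ (u * u) (f (a (u * u)⁻¹ (a (u * u) x))) = f (a (u * u) x) :=
    congrFun (congrArg Subtype.val key) (a (u * u) x)
  rw [← a_mul, inv_mul_cancel, a_one] at h5
  exact h5.symm

/-- The elements with the main property. -/
def S8 (ρ : G → (V →+ V)) : Set V :=
  {v | ∀ w : G, (∀ v, ∃ z, ρ (w * w) v - v = (2 : ℤ) • z) →
    ∃ y, ρ (w * w * (w * w)) v - v = (8 : ℤ) • y}

theorem S8.sub {v v' : V} (h : v ∈ S8 ρ) (h' : v' ∈ S8 ρ) : v - v' ∈ S8 ρ := by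
  intro w hw
  obtain ⟨y, hy⟩ := h w hw
  obtain ⟨y', hy'⟩ := h' w hw
  refine ⟨y - y', ?_⟩
  rw [map_sub, smul_sub, ← hy, ← hy']
  abel

include rho_mul rho_one in
theorem S8.act {v : V} (h : v ∈ S8 ρ) (g : G) : ρ g v ∈ S8 ρ := by
  intro w hw
  have hgw : ∀ x : G, g * (g⁻¹ * x * g) = x * g := fun x => by group
  obtain ⟨y, hy⟩ := h (g⁻¹ * w * g) (fun v => by
    obtain ⟨z, hz⟩ := hw (ρ g v)
    refine ⟨ρ g⁻¹ z, ?_⟩
    have e : g⁻¹ * w * g * (g⁻¹ * w * g) = g⁻¹ * ((w * w) * g) := by group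
    rw [e, rho_mul, rho_mul, ← map_zsmul, ← hz, map_sub]
    congr 1
    rw [← rho_mul, inv_mul_cancel, rho_one])
  refine ⟨ρ g y, ?_⟩
  have e : g * (g⁻¹ * w * g * (g⁻¹ * w * g) * (g⁻¹ * w * g * (g⁻¹ * w * g))) =
      w * w * (w * w) * g := by group
  rw [← map_zsmul, ← hy, map_sub, ← rho_mul, ← rho_mul, e]

include rho_one rho_mul a_one a_mul htf hsep hmodU hH in
/-- The values of the equivariant functions have the main property. -/
theorem val_S8 (hfin : H.FiniteIndex) {f : U → V} (hf : f ∈ Eqv ρ a H) (x : U) : f x ∈ S8 ρ := by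
  intro w hw
  have h1 := eqv_fix rho_one rho_mul a_one a_mul htf hsep hmodU hH hfin hw hf x
  obtain ⟨y, hy⟩ := a_eight a_mul hmodU w x
  refine ⟨f y, ?_⟩
  rw [← h1]
  have e : a (w * w * (w * w)) x = x + (8 : ℤ) • y := by
    rw [← hy]
    abel
  rw [e, hf.1, eqv_smul hf]
  abel

include rho_mul htf in
/-- The main relation modulo two. -/
theorem S8.rel {v z z' : V} (hv : v ∈ S8 ρ) {w : G} (hw : ∀ v, ∃ z, ρ (w * w) v - v = (2 : ℤ) • z)
    (h1 : ρ (w * w) v - v = (2 : ℤ) • z) (h2 : ρ (w * w) z - z = (2 : ℤ) • z') :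
    ∃ y, z + z' = (2 : ℤ) • y := by
  obtain ⟨y, hy⟩ := hv w hw
  refine ⟨y, ?_⟩
  have e1 : ρ (w * w) v = v + (2 : ℤ) • z := by rw [← h1]; abel
  have e2 : ρ (w * w) z = z + (2 : ℤ) • z' := by rw [← h2]; abel
  rw [rho_mul (w * w) (w * w), e1, map_add, map_zsmul, e1, e2] at hy
  apply eq_of_sub_eq_zero
  apply htf
  apply htf
  have h3 : (2 : ℤ) • (2 : ℤ) • (z + z' - (2 : ℤ) • y) =
      (v + (2 : ℤ) • z + (2 : ℤ) • (z + (2 : ℤ) • z') - v) - (8 : ℤ) • y := by
    module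
  rw [h3, hy, sub_self]

end grp

end Pool.Agent.K9h16.MT
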