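import Pool.Agent.K9h16.MT.Abs
import Pool.Agent.K9h16.QT.Van

/-!
The parity functions of the values of the equivariant homomorphisms are constant.
-/

set_option autoImplicit false
set_option linter.all false

open Polynomial IsDedekindDomain WeierstrassCurve WeierstrassCurve.Affine
open scoped Classical Pointwise

namespace Pool.Agent.K9h16.MT

open Pool.Agent.TH115.GD Pool.Agent.K9h16.PT Pool.Agent.K9h16.QT Pool.Agent.R939.EI

section tow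

variable {k k' K F : Type} [Field k] [Field k'] [Algebra k k'] [Field K] [Algebra k[X] K]
    [Field F] [Algebra k'[X] F] [IsFractionRing k'[X] F] [Algebra K F]
    (hT : IsTower k k' K F) {a b : k[X]} (hS : Sd a b)
  (hN : Preserves K F (Sep F)) {H : Subgroup (Sep F ≃ₐ[K] Sep F)} (hH : H.Normal)

include hT hS in
/-- The main relation for the classes. -/
theorem rel {c z z' : Cc (Wc K a b) F} (hc : PC k' (Wc K a b) H c) (hz : PC k' (Wc K a b) H z)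
    (hz' : PC k' (Wc K a b) H z')
    (h8 : (QuotientAddGroup.mk (⟨c, hc⟩ : UU k' (Wc K a b) H) : UU k' (Wc K a b) H ⧸ NN k' (Wc K a b) H) ∈
      S8 (rho hT hN hH)) {τ : Sep F ≃ₐ[K] Sep F}
    (hall : ∀ c : Cc (Wc K a b) F, PC k' (Wc K a b) H c →
      ∃ z, PC k' (Wc K a b) H z ∧ TA hN τ (TA hN τ c) - c = z + z)
    (h1 : TA hN τ (TA hN τ c) - c = z + z) (h2 : TA hN τ (TA hN τ z) - z = z' + z') :
    ∃ y, PC k' (Wc K a b) H y ∧ Nul (Wc K a b) (z + z' - (y + y)) := by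
  haveI := hT.sep
  haveI := hT.fracK
  haveI : NeZero (2 : K) := ⟨tt hS.h2⟩
  obtain ⟨α, γ, hR⟩ := exists_rts hT hS
  have key : ∀ (x y : UU k' (Wc K a b) H), TA hN τ (TA hN τ x.1) - x.1 = y.1 + y.1 →
      rho hT hN hH (τ * τ) (QuotientAddGroup.mk x) - QuotientAddGroup.mk x =
        (2 : ℤ) • (QuotientAddGroup.mk y : UU k' (Wc K a b) H ⧸ NN k' (Wc K a b) H) := by
    intro x y h
    rw [rho_mk, two_zsmul, ← QuotientAddGroup.mk_sub, ← QuotientAddGroup.mk_add]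
    congr 1
    apply Subtype.ext
    show TA hN (τ * τ) x.1 - x.1 = y.1 + y.1
    rw [TA_mul, h]
  obtain ⟨y, hy⟩ := S8.rel (ρ := rho hT hN hH) (q_mul hT hN hH) (q_htf (k' := k') (noFour_Wc hT hS hR)) h8 (w := τ)
    (fun v => by
      obtain ⟨x, rfl⟩ := QuotientAddGroup.mk_surjective v
      obtain ⟨y, hy, h⟩ := hall x.1 x.2
      exact ⟨_, key x ⟨y, hy⟩ h⟩) (key ⟨c, hc⟩ ⟨z, hz⟩ h1) (key ⟨z, hz⟩ ⟨z', hz'⟩ h2)
  obtain ⟨y, rfl⟩ := QuotientAddGroup.mk_surjective y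
  refine ⟨y.1, y.2, ?_⟩
  rw [two_zsmul, ← QuotientAddGroup.mk_add, ← QuotientAddGroup.mk_add, mk_eq] at hy
  exact hy

include hT hS hN hH in
/-- **The parity functions are constant.** -/
theorem kth8 (hsw : SwG k' b) (hpure : PureG k' b (a ^ 2 - 4 * b)) (h5 : Five k' b)
    (h5' : Five k' (a ^ 2 - 4 * b))
    {c : Cc (Wc K a b) F} (hc : PC k' (Wc K a b) H c)
    (h8 : (QuotientAddGroup.mk (⟨c, hc⟩ : UU k' (Wc K a b) H) : UU k' (Wc K a b) H ⧸ NN k' (Wc K a b) H) ∈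
      S8 (rho hT hN hH)) {f : k' → ZMod 2}
    (hf : PF (Wc K a b) (c 1) f) : ∃ κ : ZMod 2, ∀ θ : k', aeval θ b = 0 → f θ = κ := by
  haveI := hT.sep
  haveI := hT.fracK
  haveI : IsSepClosed k' := IsSepClosure.sep_closed k
  have h2' : (2 : k') ≠ 0 := two_k' hS.h2
  haveI : NeZero (2 : K) := ⟨tt hS.h2⟩
  obtain ⟨α, γ, hR⟩ := exists_rts hT hS
  obtain ⟨α', γ', hR'⟩ := exists_rts hT hS.dual
  by_contra hcon
  push Not at hcon
  obtain ⟨β, hβ, -⟩ := hcon 0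
  obtain ⟨β', hβ', hne⟩ := hcon (f β)
  have hββ : β' ≠ β := fun h => hne (by rw [h])
  have hsum : f β' + f β = 1 := by
    have : ∀ x y : ZMod 2, x ≠ y → x + y = 1 := by decide
    exact this _ _ hne
  -- the first class
  obtain ⟨s, s1, s2, s3⟩ := hsw β β' hβ hβ' hββ.symm
  obtain ⟨τ0, hτ0⟩ := exists_lift (K := K) (F := F) hT s
  obtain ⟨c1, hc1⟩ : ∃ c1, c1 = TA hN τ0 c - c := ⟨_, rfl⟩
  have hP1 : PC k' (Wc K a b) H c1 := by rw [hc1]; exact pc_diff hT hN hH hc τ0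
  have h81 : (QuotientAddGroup.mk (⟨c1, hP1⟩ : UU k' (Wc K a b) H) :
      UU k' (Wc K a b) H ⧸ NN k' (Wc K a b) H) ∈ S8 (rho hT hN hH) := by
    have e := S8.sub (S8.act (ρ := rho hT hN hH) (q_one hT hN hH) (q_mul hT hN hH) h8 τ0) h8
    rw [rho_mk, ← QuotientAddGroup.mk_sub] at e
    have e1 : (⟨c1, hP1⟩ : UU k' (Wc K a b) H) = TU hT hN hH τ0 ⟨c, hc⟩ - ⟨c, hc⟩ :=
      Subtype.ext hc1
    rw [e1]
    exact e
  obtain ⟨f1, hf1⟩ : ∃ f1 : k' → ZMod 2, f1 = (fun θ => f (s.symm θ)) + f := ⟨_, rfl⟩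
  have hF1 : PF (Wc K a b) (c1 1) f1 := by
    rw [hc1, hf1]
    exact pf_sub hR (pf_TA hN hf hτ0) hf (two_tc (PC.TA hT hN hH hc τ0).tc) (two_tc hc.tc)
  have s1' : s.symm β' = β := by rw [AlgEquiv.symm_apply_eq, s1]
  have s2' : s.symm β = β' := by rw [AlgEquiv.symm_apply_eq, s2]
  have v1 : f1 β = 1 := by
    rw [hf1]
    show f (s.symm β) + f β = 1
    rw [s2', hsum]
  have v2 : f1 β' = 1 := by
    rw [hf1]
    show f (s.symm β') + f β' = 1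
    rw [s1', add_comm, hsum]
  have v3 : ∀ θ : k', aeval θ b = 0 → θ ≠ β → θ ≠ β' → f1 θ = 0 := by
    intro θ hθ h h'
    rw [hf1]
    show f (s.symm θ) + f θ = 0
    have : s.symm θ = θ := by rw [AlgEquiv.symm_apply_eq, s3 θ hθ h h']
    rw [this]
    exact zz _
  -- the roots
  obtain ⟨β1, β3, β4, r1, r3, r4, n13, n14, n34, n1, n1', n3, n3', n4, n4'⟩ := h5 β β'
  obtain ⟨e1, e2, e3, t1, t2, t3, m12, m13, m23, -, -, -, -, -, -⟩ := h5' β β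
  obtain ⟨w, w1, w2, w3, w4⟩ := exists_A h2' hS.cop hpure (β1 := β1) (β2 := β) (β3 := β3)
    (β4 := β4) (e1 := e1) (e2 := e2) (e3 := e3) r1 hβ r3 r4 t1 t2 t3 n1 n34 m12 m23
  obtain ⟨τ, hτ, hτα, hτα'⟩ := lift_fix hT hS hR hR' w
  have key := fun (c : Cc (Wc K a b) F) (hc : PC k' (Wc K a b) H c) (f : k' → ZMod 2)
    (hf : PF (Wc K a b) (c 1) f) => zlm hT hS hR hR' hN hH hc hτ hτα hτα' w1 w2 hf
  have hall : ∀ c : Cc (Wc K a b) F, PC k' (Wc K a b) H c →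
      ∃ z, PC k' (Wc K a b) H z ∧ TA hN τ (TA hN τ c) - c = z + z := by
    intro c hc
    obtain ⟨f, hf⟩ := pf_exists hR k' (hc.tc.coc 1) (two_tc hc.tc)
    obtain ⟨z, hz, hz', -⟩ := key c hc f hf
    exact ⟨z, hz, hz'⟩
  obtain ⟨z, hz, hze, hzf⟩ := key c1 hP1 f1 hF1
  obtain ⟨g, hg⟩ := pf_exists hR k' (hz.tc.coc 1) (two_tc hz.tc)
  obtain ⟨z', hz', hze', hzf'⟩ := key z hz g hg
  obtain ⟨g', hg'⟩ := pf_exists hR k' (hz'.tc.coc 1) (two_tc hz'.tc)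
  obtain ⟨f', κ, κ', p1, p2⟩ := hzf g hg
  obtain ⟨f'', κ₂, κ₂', q1, q2⟩ := hzf' g' hg'
  obtain ⟨y, hy, hnul⟩ := rel hT hS hN hH hP1 hz hz' h81 hall hze hze'
  have hzz : PC k' (Wc K a b) H (z + z' - (y + y)) := by
    rw [sub_eq_add_neg]
    exact (hz.add hz').add (hy.add hy).neg
  have hyy : PF (Wc K a b) ((y + y) 1) (0 : k' → ZMod 2) :=
    pf_congr (pf_zero' hR) (fun σ => (two_tc hy.tc σ).symm)
  have hsub := pf_sub hR (pf_add hR hg hg' (two_tc hz.tc) (two_tc hz'.tc)) hyy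
    (two_tc (hz.add hz').tc) (two_tc (hy.add hy).tc)
  obtain ⟨κ₃, h3⟩ := pf_nul hT hS hR hzz.tc hnul hsub
  rw [add_zero] at h3
  -- the formulas
  have mB : ∀ {θ : k'}, aeval θ b = 0 → θ ∈ RB k' b := fun h => (mem_RB hS.b0).2 h
  have mD : ∀ {θ : k'}, aeval θ (a ^ 2 - 4 * b) = 0 → θ ∈ RB k' (a ^ 2 - 4 * b) :=
    fun h => (mem_RB hS.d0).2 h
  have formD : ∀ (φ : k' → ZMod 2) (e : k'), aeval e (a ^ 2 - 4 * b) = 0 →
      ∑ η ∈ (RB k' b).filter (fun η => φ η = 1), sg w (e - η) =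
        (φ β1 + φ β) * (ee e1 e + ee e2 e) + (φ β3 + φ β4) * (ee e2 e + ee e3 e) := by
    intro φ e he
    rw [sum_filter_one, ← row_sum (mB r1) (mB hβ) (mB r3) (mB r4) φ]
    refine Finset.sum_congr rfl fun η hη => ?_
    rw [mem_RB hS.b0] at hη
    rw [w4 η e hη he, w3 η e hη he]
  have formB : ∀ (φ : k' → ZMod 2) (θ : k'), aeval θ b = 0 →
      ∑ η ∈ (RB k' (a ^ 2 - 4 * b)).filter (fun η => φ η = 1), sg w (θ - η) =
        (φ e1 + φ e2) * (ee β1 θ + ee β θ) + (φ e2 + φ e3) * (ee β3 θ + ee β4 θ) := by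
    intro φ θ hθ
    rw [sum_filter_one, ← row_sum (mD t1) (mD t2) (mD t2) (mD t3) φ]
    refine Finset.sum_congr rfl fun η hη => ?_
    rw [mem_RB hS.d0] at hη
    rw [w3 θ η hθ hη, mul_comm (ee β1 θ + ee β θ), mul_comm (ee β3 θ + ee β4 θ)]
  have x0 := v3 β1 r1 n1 n1'
  have x3 := v3 β3 r3 n3 n3'
  have x4 := v3 β4 r4 n4 n4'
  -- the first step
  have a1 : f' e1 = 1 + κ := by
    rw [p1 e1 t1, formD f1 e1 t1, x0, v1, x3, x4, ee_self, ee_ne m12, ee_ne m13]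
    ring
  have a2 : f' e2 = 1 + κ := by
    rw [p1 e2 t2, formD f1 e2 t2, x0, v1, x3, x4, ee_self, ee_ne m12.symm, ee_ne m23]
    ring
  have a3 : f' e3 = κ := by
    rw [p1 e3 t3, formD f1 e3 t3, x0, v1, x3, x4, ee_self, ee_ne m13.symm, ee_ne m23.symm]
    ring
  have c0 : f' e1 + f' e2 = 0 := by rw [a1, a2]; exact zz _
  have c2 : f' e2 + f' e3 = 1 := by
    rw [a2, a3, add_assoc, zz, add_zero]
  have g1 : g β1 = κ' := by
    rw [p2 β1 r1, formB f' β1 r1, c0, c2, ee_ne n13, ee_ne n14]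
    ring
  have g2 : g β = κ' := by
    rw [p2 β hβ, formB f' β hβ, c0, c2, ee_ne n3.symm, ee_ne n4.symm]
    ring
  have g3 : g β3 = 1 + κ' := by
    rw [p2 β3 r3, formB f' β3 r3, c0, c2, ee_self, ee_ne n34]
    ring
  have g4 : g β4 = 1 + κ' := by
    rw [p2 β4 r4, formB f' β4 r4, c0, c2, ee_self, ee_ne n34.symm]
    ring
  -- the second step
  have d1 : ∀ e : k', aeval e (a ^ 2 - 4 * b) = 0 → f'' e = κ₂ := by
    intro e he
    rw [q1 e he, formD g e he, g1, g2, g3, g4, zz, zz, zero_mul, zero_mul, zero_add, zero_add]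
  have g5 : ∀ θ : k', aeval θ b = 0 → g' θ = κ₂' := by
    intro θ hθ
    rw [q2 θ hθ, formB f'' θ hθ, d1 e1 t1, d1 e2 t2, d1 e3 t3, zz, zero_mul, zero_mul, zero_add,
      zero_add]
  have y1 := h3 β1 r1
  have y3 := h3 β3 r3
  rw [Pi.add_apply, g1, g5 β1 r1] at y1
  rw [Pi.add_apply, g3, g5 β3 r3] at y3
  rw [← y1] at y3
  have : ∀ x y : ZMod 2, 1 + x + y ≠ x + y := by decide
  exact this _ _ y3

end tow

end Pool.Agent.K9h16.MT
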