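import Mathlib
import Pool.Agent.X243.Gen.Dens

/-!
A polynomial over a finitely generated domain has roots modulo infinitely many maximal ideals.
-/

set_option autoImplicit false
set_option linter.all false

open Polynomial
open scoped Classical TensorProduct

namespace Pool.Agent.K9h16.MT

section norm

variable {k L : Type*} [Field k] [Field L] [Algebra k L] [FiniteDimensional k L]

theorem norm_poly (f : L[X]) : ∃ P : k[X], ∀ y : k,
    P.eval y = Algebra.norm k (f.eval (algebraMap k L y)) := by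
  obtain ⟨b, -⟩ : ∃ b : Module.Basis (Fin (Module.finrank k L)) k L, b = Module.finBasis k L :=
    ⟨_, rfl⟩
  refine ⟨(∑ i ∈ f.support, (X ^ i : k[X]) • ((Algebra.leftMulMatrix b (f.coeff i)).map
    (C : k →+* k[X]))).det, fun y => ?_⟩
  rw [← coe_evalRingHom, RingHom.map_det, Algebra.norm_eq_matrix_det b]
  congr 1
  rw [map_sum, Polynomial.eval_eq_sum, Polynomial.sum, map_sum]
  refine Finset.sum_congr rfl fun i _ => ?_
  rw [map_mul, ← map_pow (algebraMap k L), AlgHom.commutes, Algebra.algebraMap_eq_smul_one,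
    mul_smul_comm, mul_one]
  ext p q
  rw [RingHom.mapMatrix_apply, Matrix.map_apply, Matrix.smul_apply, Matrix.smul_apply,
    Matrix.map_apply, smul_eq_mul, smul_eq_mul, map_mul, coe_evalRingHom, eval_pow, eval_X, eval_C]

theorem norm_ne [Infinite k] {f : L[X]} (hf : 0 < f.natDegree)
    (h : ∀ y : k, Algebra.norm k (f.eval (algebraMap k L y)) = 1) : False := by
  obtain ⟨P, hP⟩ := norm_poly (k := k) f.reverse
  obtain ⟨d, hd⟩ : ∃ d, d = Module.finrank k L := ⟨_, rfl⟩
  have hd0 : 0 < d := hd ▸ Module.finrank_pos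
  have e : ∀ y : k, y ≠ 0 → P.eval y = y ^ (f.natDegree * d) := by
    intro y hy
    have hy' : algebraMap k L y ≠ 0 := (_root_.map_ne_zero _).2 hy
    have h1 : f.reverse.eval (algebraMap k L y) =
        algebraMap k L (y ^ f.natDegree) * f.eval (algebraMap k L y⁻¹) := by
      letI : Invertible (algebraMap k L y⁻¹) := ⟨algebraMap k L y, by
        rw [← map_mul, mul_inv_cancel₀ hy, map_one], by
        rw [← map_mul, inv_mul_cancel₀ hy, map_one]⟩
      have h2 := eval₂_reverse_mul_pow (RingHom.id L) (algebraMap k L y⁻¹) f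
      have h3 : ⅟(algebraMap k L y⁻¹) = algebraMap k L y := rfl
      rw [h3] at h2
      have h4 : f.eval (algebraMap k L y⁻¹) = f.reverse.eval (algebraMap k L y) *
        (algebraMap k L y⁻¹) ^ f.natDegree := h2.symm
      rw [h4, mul_left_comm, ← map_pow, ← map_mul, inv_pow, mul_inv_cancel₀ (pow_ne_zero _ hy),
        map_one, mul_one]
    rw [hP, h1, map_mul, h, mul_one, Algebra.norm_algebraMap, ← hd, pow_mul]
  have e2 : P = X ^ (f.natDegree * d) := by
    apply eq_of_infinite_eval_eq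
    refine ((Set.finite_singleton (0 : k)).infinite_compl).mono fun y hy => ?_
    show P.eval y = (X ^ _).eval y
    rw [e y hy, eval_pow, eval_X]
  have h3 := hP 0
  rw [e2, eval_pow, eval_X, zero_pow (by positivity), map_zero, ← coeff_zero_eq_eval_zero,
    coeff_zero_reverse] at h3
  have h4 : f.leadingCoeff ≠ 0 := by
    rw [Ne, leadingCoeff_eq_zero]
    rintro rfl
    simp at hf
  exact h4 (Algebra.norm_eq_zero_iff.1 h3.symm)

end norm

section units

variable {A : Type*} [CommRing A] [IsDomain A] [Infinite A] [Finite Aˣ] {k L : Type*} [Field k]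
  [Algebra A k] [IsFractionRing A k] [Field L] [Algebra k L] [FiniteDimensional k L]

theorem units_false {f : L[X]} (hf : 0 < f.natDegree) (h0 : f.eval 0 = 1) {s : A} (hs : s ≠ 0)
    (h : ∀ y : A, ∃ (a : A) (j : ℕ), Algebra.norm k (f.eval (algebraMap k L (algebraMap A k y))) *
      algebraMap A k a = algebraMap A k s ^ j) : False := by
  have inj : Function.Injective (algebraMap A k) := IsFractionRing.injective A k
  haveI : Infinite k := Infinite.of_injective _ inj
  obtain ⟨P, hP⟩ := norm_poly (k := k) f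
  obtain ⟨e, he⟩ := IsLocalization.exist_integer_multiples_of_finset (nonZeroDivisors A)
    (P.support.image P.coeff)
  have he' : ∀ i, ∃ a : A, algebraMap A k a = algebraMap A k e * P.coeff i := by
    intro i
    by_cases hi : i ∈ P.support
    · obtain ⟨a, ha⟩ := he _ (Finset.mem_image_of_mem _ hi)
      exact ⟨a, by rw [ha, Algebra.smul_def]⟩
    · refine ⟨0, ?_⟩
      rw [notMem_support_iff.1 hi, mul_zero, map_zero]
  choose a ha using he'
  have hP0 : P.coeff 0 = 1 := by
    rw [coeff_zero_eq_eval_zero, hP, map_zero, h0, map_one]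
  have hw : ∀ z : A, ∃ w : A, P.eval (algebraMap A k (s * e * z)) = algebraMap A k (1 + s * w) := by
    intro z
    refine ⟨∑ i ∈ Finset.range P.natDegree, a (i + 1) * z * (s * e * z) ^ i, ?_⟩
    rw [eval_eq_sum_range, Finset.sum_range_succ', hP0, pow_zero, one_mul, add_comm,
      map_add (algebraMap A k), map_one (algebraMap A k), map_mul (algebraMap A k) s (∑ i ∈ _, _),
      map_sum (algebraMap A k), Finset.mul_sum]
    congr 1
    refine Finset.sum_congr rfl fun i _ => ?_
    simp only [map_mul, map_pow, ha, pow_succ]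
    ring
  choose w hw using hw
  have hunit : ∀ z : A, IsUnit (1 + s * w z) := by
    intro z
    obtain ⟨b, j, hb⟩ := h (s * e * z)
    rw [← hP, hw, ← map_mul, ← map_pow] at hb
    have hb' := inj hb
    have hc : IsCoprime (1 + s * w z) (s ^ j) := by
      apply IsCoprime.pow_right
      exact ⟨1, -w z, by ring⟩
    exact hc.isUnit_of_dvd' dvd_rfl ⟨b, hb'.symm⟩
  choose v hv using hunit
  obtain ⟨u, hu⟩ := Finite.exists_infinite_fiber v
  have hse : algebraMap A k (s * e) ≠ 0 := by
    rw [Ne, map_eq_zero_iff _ inj]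
    exact mul_ne_zero hs (nonZeroDivisors.coe_ne_zero e)
  have key : P.comp (C (algebraMap A k (s * e)) * X) = C (algebraMap A k (u : A)) := by
    apply eq_of_infinite_eval_eq
    have h1 : (algebraMap A k '' (v ⁻¹' {u})).Infinite :=
      (Set.infinite_coe_iff.1 hu).image inj.injOn
    refine h1.mono ?_
    rintro _ ⟨z, hz, rfl⟩
    show (P.comp _).eval _ = (C _).eval _
    rw [eval_comp, eval_mul, eval_C, eval_X, eval_C, ← map_mul, hw, ← hv]
    have : v z = u := hz
    rw [this]
  refine norm_ne (k := k) hf (fun y => ?_)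
  rw [← hP]
  have h5 : ∀ y : k, P.eval y = algebraMap A k (u : A) := by
    intro y
    have h6 := congrArg (fun Q => Q.eval (y / algebraMap A k (s * e))) key
    simp only [eval_comp, eval_mul, eval_C, eval_X, mul_div_cancel₀ _ hse] at h6
    exact h6
  rw [h5, ← h5 0, ← coeff_zero_eq_eval_zero, hP0]

end units

section denom

variable {A R L : Type*} [CommRing A] [IsDomain A] [CommRing R] [Field L] [Algebra A R]
  [Algebra A L] [Algebra.FiniteType A R]

theorem exists_denom (halg : ∀ x : L, IsAlgebraic A x) (φ : R →ₐ[A] L) :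
    ∃ s : A, s ≠ 0 ∧ ∀ v : R, ∃ j : ℕ, IsIntegral A (algebraMap A L s ^ j * φ v) := by
  obtain ⟨S, hS⟩ := Algebra.FiniteType.out (R := A) (A := R)
  have h1 : ∀ x : R, ∃ y : A, y ≠ 0 ∧ IsIntegral A (y • φ x) := fun x =>
    (halg (φ x)).exists_integral_multiple
  choose d hd0 hd using h1
  refine ⟨∏ x ∈ S, d x, Finset.prod_ne_zero_iff.2 fun x _ => hd0 x, fun v => ?_⟩
  obtain ⟨s, hs⟩ : ∃ s, s = ∏ x ∈ S, d x := ⟨_, rfl⟩
  rw [← hs]
  have hsi : ∀ j, IsIntegral A (algebraMap A L s ^ j) := fun j => (isIntegral_algebraMap).pow j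
  have hv : v ∈ Algebra.adjoin A (S : Set R) := by rw [hS]; trivial
  induction hv using Algebra.adjoin_induction with
  | mem x hx =>
    refine ⟨1, ?_⟩
    have h2 : s = d x * ∏ y ∈ S.erase x, d y := by
      rw [hs, Finset.mul_prod_erase _ _ hx]
    rw [pow_one, h2, map_mul, mul_comm (algebraMap A L (d x)), mul_assoc, ← Algebra.smul_def (d x)]
    exact isIntegral_algebraMap.mul (hd x)
  | algebraMap r =>
    refine ⟨0, ?_⟩
    rw [pow_zero, one_mul, AlgHom.commutes]
    exact isIntegral_algebraMap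
  | add x y _ _ hx hy =>
    obtain ⟨i, hi⟩ := hx
    obtain ⟨j, hj⟩ := hy
    refine ⟨i + j, ?_⟩
    have e : algebraMap A L s ^ (i + j) * φ (x + y) = algebraMap A L s ^ j *
        (algebraMap A L s ^ i * φ x) + algebraMap A L s ^ i * (algebraMap A L s ^ j * φ y) := by
      rw [map_add]; ring
    rw [e]
    exact ((hsi j).mul hi).add ((hsi i).mul hj)
  | mul x y _ _ hx hy =>
    obtain ⟨i, hi⟩ := hx
    obtain ⟨j, hj⟩ := hy
    refine ⟨i + j, ?_⟩
    have e : algebraMap A L s ^ (i + j) * φ (x * y) =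
        (algebraMap A L s ^ i * φ x) * (algebraMap A L s ^ j * φ y) := by
      rw [map_mul]; ring
    rw [e]
    exact hi.mul hj

end denom

section spec

variable {A R : Type} [CommRing A] [IsDomain A] [IsPrincipalIdealRing A] [Infinite A] [Finite Aˣ]
  [CommRing R] [IsDomain R] [Algebra A R] [Algebra.FiniteType A R]

/-- Not all the values are units. -/
theorem not_units (hinj : Function.Injective (algebraMap A R)) {u : R[X]} (hu : 0 < u.natDegree)
    (h0 : u.eval 0 = 1) : ∃ y : A, ¬ IsUnit (u.eval (algebraMap A R y)) := by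
  by_contra hcon
  push Not at hcon
  obtain ⟨k, _, _, _⟩ : ∃ (k : Type) (_ : Field k) (_ : Algebra A k), IsFractionRing A k :=
    ⟨FractionRing A, inferInstance, inferInstance, inferInstance⟩
  have injk : Function.Injective (algebraMap A k) := IsFractionRing.injective A k
  haveI : Module.IsTorsionFree A R := Module.isTorsionFree_iff_algebraMap_injective.2 hinj
  haveI : Module.Flat A R := inferInstance
  have hR : Function.Injective (Algebra.TensorProduct.includeRight : R →ₐ[A] k ⊗[A] R) :=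
    Algebra.TensorProduct.includeRight_injective injk
  have hlc : u.leadingCoeff ≠ 0 := by
    rw [Ne, leadingCoeff_eq_zero]
    rintro rfl
    simp at hu
  haveI : IsJacobsonRing (k ⊗[A] R) := isJacobsonRing_of_finiteType (A := k)
  obtain ⟨N, hN, hl⟩ : ∃ N : Ideal (k ⊗[A] R), N.IsMaximal ∧
      (Algebra.TensorProduct.includeRight : R →ₐ[A] k ⊗[A] R) u.leadingCoeff ∉ N := by
    by_contra hno
    push Not at hno
    have h1 : (Algebra.TensorProduct.includeRight : R →ₐ[A] k ⊗[A] R) u.leadingCoeff ∈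
        (nilradical (k ⊗[A] R)).jacobson := by
      rw [Ideal.jacobson, Ideal.mem_sInf]
      rintro m ⟨-, hm⟩
      exact hno m hm
    have h2 : (nilradical (k ⊗[A] R)).jacobson = nilradical (k ⊗[A] R) :=
      IsJacobsonRing.out (inferInstance) (Ideal.radical_isRadical _)
    rw [h2, mem_nilradical] at h1
    obtain ⟨n, hn⟩ := h1
    rw [← map_pow, ← map_zero (Algebra.TensorProduct.includeRight : R →ₐ[A] k ⊗[A] R)] at hn
    exact pow_ne_zero n hlc (hR hn)
  letI : Field ((k ⊗[A] R) ⧸ N) := Ideal.Quotient.field N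
  haveI : Algebra.FiniteType k ((k ⊗[A] R) ⧸ N) := inferInstance
  haveI : Module.Finite k ((k ⊗[A] R) ⧸ N) := finite_of_finite_type_of_isJacobsonRing _ _
  let φ : R →ₐ[A] ((k ⊗[A] R) ⧸ N) :=
    (Ideal.Quotient.mkₐ A N).comp (Algebra.TensorProduct.includeRight : R →ₐ[A] k ⊗[A] R)
  have hφ : φ u.leadingCoeff ≠ 0 := by
    show Ideal.Quotient.mk N _ ≠ 0
    rw [Ne, Ideal.Quotient.eq_zero_iff_mem]
    exact hl
  have halg : ∀ x : ((k ⊗[A] R) ⧸ N), IsAlgebraic A x := by
    intro x
    exact (IsFractionRing.isAlgebraic_iff A k ((k ⊗[A] R) ⧸ N)).2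
      (Algebra.IsAlgebraic.isAlgebraic x)
  obtain ⟨s, hs, hden⟩ := exists_denom halg φ
  have hf : (u.map (φ : R →+* ((k ⊗[A] R) ⧸ N))).natDegree = u.natDegree :=
    natDegree_map_of_leadingCoeff_ne_zero _ hφ
  refine units_false (A := A) (k := k) (L := (k ⊗[A] R) ⧸ N) (f := u.map (φ : R →+* _)) ?_ ?_ hs ?_
  · rw [hf]; exact hu
  · rw [← map_zero (φ : R →+* ((k ⊗[A] R) ⧸ N)), eval_map_apply, h0, map_one]
  · intro y
    obtain ⟨v, hv⟩ := hcon y
    obtain ⟨j, hj⟩ := hden (v⁻¹ : Rˣ)
    have h1 := Algebra.isIntegral_norm k hj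
    obtain ⟨a, ha⟩ := IsIntegrallyClosed.isIntegral_iff.1 h1
    refine ⟨a, j * Module.finrank k ((k ⊗[A] R) ⧸ N), ?_⟩
    have e1 : algebraMap k ((k ⊗[A] R) ⧸ N) (algebraMap A k y) = φ (algebraMap A R y) := by
      rw [φ.commutes, ← IsScalarTower.algebraMap_apply]
    have e2 : algebraMap A ((k ⊗[A] R) ⧸ N) s = algebraMap k _ (algebraMap A k s) :=
      IsScalarTower.algebraMap_apply _ _ _ _
    have e3 : (u.map (φ : R →+* ((k ⊗[A] R) ⧸ N))).eval (φ (algebraMap A R y)) =
        φ (v : R) := by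
      rw [hv]
      exact eval_map_apply _ _
    rw [ha, e1, e3, ← map_mul, mul_left_comm, ← map_mul φ, Units.mul_inv, map_one, mul_one, e2,
      ← map_pow, Algebra.norm_algebraMap, pow_mul]

end spec

section all

variable {R : Type} [CommRing R] [IsDomain R] [Algebra.FiniteType ℤ R]

/-- Not all the values are units. -/
theorem not_units' (hR : ¬ IsField R) {u : R[X]} (hu : 0 < u.natDegree) (h0 : u.eval 0 = 1) :
    ∃ y : R, ¬ IsUnit (u.eval y) := by
  obtain ⟨p, hp⟩ := CharP.exists R
  rcases CharP.char_is_prime_or_zero R p with hpr | rfl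
  · haveI : Fact p.Prime := ⟨hpr⟩
    letI : Algebra (ZMod p) R := ZMod.algebra R p
    haveI : IsScalarTower ℤ (ZMod p) R := IsScalarTower.of_algebraMap_eq fun z => by
      rw [eq_intCast, eq_intCast]
      simp
    obtain ⟨t, ht⟩ : ∃ t : R, Transcendental (ZMod p) t := by
      by_contra hcon
      push Not at hcon
      apply hR
      have h1 : Algebra.IsIntegral (ZMod p) R := ⟨fun x => by
        have h2 : IsAlgebraic (ZMod p) x := by
          have := hcon x
          rwa [Transcendental, not_not] at this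
        exact isAlgebraic_iff_isIntegral.1 h2⟩
      exact isField_of_isIntegral_of_isField' (Field.toIsField (ZMod p))
    letI : Algebra (ZMod p)[X] R := (aeval (R := ZMod p) t).toRingHom.toAlgebra
    have hmap : ∀ q : (ZMod p)[X], algebraMap (ZMod p)[X] R q = aeval t q := fun q => rfl
    haveI : IsScalarTower ℤ (ZMod p)[X] R := IsScalarTower.of_algebraMap_eq fun z => by
      rw [eq_intCast, eq_intCast, map_intCast]
    haveI : Algebra.FiniteType (ZMod p)[X] R :=
      Algebra.FiniteType.of_restrictScalars_finiteType ℤ (ZMod p)[X] R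
    haveI : Finite ((ZMod p)[X])ˣ := by
      refine Finite.of_injective (fun u : ((ZMod p)[X])ˣ => (u : (ZMod p)[X]).coeff 0) ?_
      intro u v huv
      obtain ⟨a, -, ha⟩ := Polynomial.isUnit_iff.1 u.isUnit
      obtain ⟨b, -, hb⟩ := Polynomial.isUnit_iff.1 v.isUnit
      have h3 : (u : (ZMod p)[X]).coeff 0 = (v : (ZMod p)[X]).coeff 0 := huv
      rw [← ha, ← hb, coeff_C_zero, coeff_C_zero] at h3
      apply Units.ext
      rw [← ha, ← hb, h3]
    have hinj : Function.Injective (algebraMap (ZMod p)[X] R) :=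
      transcendental_iff_injective.1 ht
    obtain ⟨y, hy⟩ := not_units (A := (ZMod p)[X]) hinj hu h0
    exact ⟨_, hy⟩
  · haveI : CharZero R := CharP.charP_to_charZero R
    haveI : Finite ℤˣ := inferInstance
    obtain ⟨y, hy⟩ := not_units (A := ℤ) (R := R) (by
      intro a b hab
      rw [eq_intCast, eq_intCast] at hab
      exact_mod_cast hab) hu h0
    exact ⟨_, hy⟩

/-- A root modulo a maximal ideal. -/
theorem root_mod (hR : ¬ IsField R) {g : R[X]} (hg : 0 < g.natDegree) {J : R} (hJ : J ≠ 0) :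
    ∃ p : Ideal R, p.IsMaximal ∧ J ∉ p ∧ ∃ r : R, g.eval r ∈ p := by
  haveI : Infinite R := by
    by_contra h
    rw [not_infinite_iff_finite] at h
    exact hR (Finite.isField_of_domain R)
  have hg0 : g ≠ 0 := by
    rintro rfl
    simp at hg
  obtain ⟨x0, hx0⟩ := Infinite.exists_notMem_finset g.roots.toFinset
  have hc : g.eval x0 ≠ 0 := by
    intro h
    exact hx0 (Multiset.mem_toFinset.2 ((mem_roots hg0).2 h))
  obtain ⟨c, hcd⟩ : ∃ c, c = g.eval x0 := ⟨_, rfl⟩
  rw [← hcd] at hc
  obtain ⟨g1, hg1⟩ : ∃ g1, g1 = taylor x0 g := ⟨_, rfl⟩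
  have e1 : g1 = divX g1 * X + C c := by
    have h1 := divX_mul_X_add g1
    have h2 : g1.coeff 0 = c := by rw [hg1, taylor_coeff_zero, hcd]
    rw [h2] at h1
    exact h1.symm
  have hd : divX g1 ≠ 0 := by
    intro h
    rw [h, zero_mul, zero_add] at e1
    have h3 : g1.natDegree = g.natDegree := by rw [hg1, natDegree_taylor]
    rw [e1, natDegree_C] at h3
    omega
  obtain ⟨q, hq⟩ : ∃ q, q = (divX g1).comp (C (c * J) * X) := ⟨_, rfl⟩
  have hcJ : c * J ≠ 0 := mul_ne_zero hc hJ
  have hq0 : q ≠ 0 := by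
    rw [hq, Ne, comp_eq_zero_iff]
    rintro (h | ⟨-, h⟩)
    · exact hd h
    · have h4 := congrArg natDegree h
      rw [natDegree_C_mul_X _ hcJ, natDegree_C] at h4
      exact one_ne_zero h4
  have hdeg : (C J * X * q).natDegree = 1 + q.natDegree := by
    rw [natDegree_mul (mul_ne_zero (C_ne_zero.2 hJ) X_ne_zero) hq0, natDegree_C_mul_X _ hJ]
  obtain ⟨y, hy⟩ := not_units' hR (u := C J * X * q + 1) (by
    rw [← C_1, natDegree_add_C, hdeg]
    omega) (by simp)
  have hval : c * (C J * X * q + 1).eval y = g.eval (c * J * y + x0) := by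
    have h5 : g.eval (c * J * y + x0) = g1.eval (c * J * y) := by
      rw [hg1, taylor_eval]
    have h7 : g1.eval (c * J * y) = (divX g1).eval (c * J * y) * (c * J * y) + c := by
      conv_lhs => rw [e1]
      rw [eval_add, eval_mul, eval_X, eval_C]
    rw [h5, h7, eval_add, eval_mul, eval_mul, eval_C, eval_X, eval_one, hq, eval_comp, eval_mul,
      eval_C, eval_X]
    ring
  obtain ⟨p, hp, hyp⟩ := exists_max_ideal_of_mem_nonunits hy
  refine ⟨p, hp, fun hJp => ?_, _, by rw [← hval]; exact p.mul_mem_left _ hyp⟩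
  apply hp.ne_top
  rw [Ideal.eq_top_iff_one]
  have h6 : (1 : R) = (C J * X * q + 1).eval y - J * (y * q.eval y) := by
    rw [eval_add, eval_mul, eval_mul, eval_C, eval_X, eval_one]
    ring
  rw [h6]
  exact p.sub_mem hyp (p.mul_mem_right _ hJp)

/-- The maximal ideals with a root of `g`. -/
def Zr (R : Type) [CommRing R] (B : ℕ) (g : R[X]) (J : R) : Set (Ideal R) :=
  {p | p ∈ Pool.Agent.X243.Gen.Zg R B ∧ J ∉ p ∧ ∃ r : R, g.eval r ∈ p}

theorem Zr_inf (hR : ¬ IsField R) (h2 : (2 : R) ≠ 0) (B : ℕ) {g : R[X]} (hg : 0 < g.natDegree)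
    {J : R} (hJ : J ≠ 0) : (Zr R B g J).Infinite := by
  intro hfin
  haveI : Infinite R := by
    by_contra h
    rw [not_infinite_iff_finite] at h
    exact hR (Finite.isField_of_domain R)
  obtain ⟨b, hb⟩ : ∃ b : R, ∏ q ∈ Finset.Ico 2 B, (b ^ q - b) ≠ 0 := by
    obtain ⟨P, hP⟩ : ∃ P : Polynomial R, P = ∏ q ∈ Finset.Ico 2 B,
      (Polynomial.X ^ q - Polynomial.X) := ⟨_, rfl⟩
    have hP0 : P ≠ 0 := by
      rw [hP, Finset.prod_ne_zero_iff]
      intro q hq h0
      have hq2 := (Finset.mem_Ico.1 hq).1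
      have h1 := congrArg (fun f : Polynomial R => f.coeff q) h0
      simp only [Polynomial.coeff_sub, Polynomial.coeff_X_pow_self, Polynomial.coeff_zero] at h1
      rw [Polynomial.coeff_X_of_ne_one (by omega), sub_zero] at h1
      exact one_ne_zero h1
    obtain ⟨b, hb⟩ := Infinite.exists_notMem_finset P.roots.toFinset
    refine ⟨b, fun h0 => hb ?_⟩
    rw [Multiset.mem_toFinset, Polynomial.mem_roots hP0, Polynomial.IsRoot.def, hP,
      Polynomial.eval_prod]
    simp only [Polynomial.eval_sub, Polynomial.eval_pow, Polynomial.eval_X]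
    exact h0
  have hne : ∀ m ∈ Zr R B g J, ∃ x ∈ m, x ≠ 0 := by
    intro m hm
    have h1 : m ≠ ⊥ := by
      rintro rfl
      exact hR (Ring.isField_iff_maximal_bot.2 hm.1.1)
    obtain ⟨x, hx, hx0⟩ := Submodule.exists_mem_ne_zero_of_ne_bot h1
    exact ⟨x, hx, hx0⟩
  choose! x hx hx0 using hne
  obtain ⟨c, hc⟩ : ∃ c : R, c = J * (2 * (∏ q ∈ Finset.Ico 2 B, (b ^ q - b)) *
    ∏ m ∈ hfin.toFinset, x m) := ⟨_, rfl⟩
  have hc0 : c ≠ 0 := by
    rw [hc]
    refine mul_ne_zero hJ (mul_ne_zero (mul_ne_zero h2 hb) ?_)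
    rw [Finset.prod_ne_zero_iff]
    intro m hm
    exact hx0 m (hfin.mem_toFinset.1 hm)
  obtain ⟨m, hm, hcm, hr⟩ := root_mod hR hg hc0
  apply hcm
  haveI := hm
  haveI : Finite (R ⧸ m) := Pool.Agent.X243.Gen.residue_finite R m
  rw [hc]
  by_cases hJm : J ∈ m
  · exact m.mul_mem_right _ hJm
  refine m.mul_mem_left _ ?_
  by_cases h3 : (2 : R) ∈ m
  · exact m.mul_mem_right _ (m.mul_mem_right _ h3)
  by_cases h4 : B ≤ Nat.card (R ⧸ m)
  · have h5 : m ∈ Zr R B g J := ⟨⟨hm, inferInstance, h4, h3⟩, hJm, hr⟩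
    refine m.mul_mem_left _ ?_
    rw [← Finset.mul_prod_erase _ _ (hfin.mem_toFinset.2 h5)]
    exact m.mul_mem_right _ (hx m h5)
  · refine m.mul_mem_right _ (m.mul_mem_left _ ?_)
    letI : Field (R ⧸ m) := Ideal.Quotient.field m
    letI := Fintype.ofFinite (R ⧸ m)
    have h5 : Nat.card (R ⧸ m) ∈ Finset.Ico 2 B := by
      rw [Finset.mem_Ico]
      refine ⟨?_, by omega⟩
      rw [Nat.card_eq_fintype_card]
      exact Fintype.one_lt_card
    rw [← Finset.mul_prod_erase _ _ h5]
    refine m.mul_mem_right _ ?_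
    rw [← Ideal.Quotient.eq, map_pow, Nat.card_eq_fintype_card, FiniteField.pow_card]

end all

end Pool.Agent.K9h16.MT
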