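import Pool.Agent.K9h16.MT.Schur
import Pool.Agent.K9h16.QT.Fing

/-!
Maximal ideals with a maximal ideal with the same residue field in a finite separable extension, and the
density of the events over the extension.
-/

set_option autoImplicit false
set_option linter.all false

open Polynomial
open scoped Classical

namespace Pool.Agent.K9h16.MT

section gen

variable (R k M : Type) [CommRing R] [IsDomain R] [IsIntegrallyClosed R]
  [Field k] [Algebra R k] [IsFractionRing R k] [Field M] [Algebra k M] [Algebra R M]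
  [IsScalarTower R k M] [FiniteDimensional k M] [Algebra.IsSeparable k M]

include k in
/-- An integral generator, and a discriminant. -/
theorem exists_gen : ∃ (γ : M) (Δ : R), IsIntegral R γ ∧ Δ ≠ 0 ∧
    ∀ z : M, IsIntegral R z → algebraMap R M Δ * z ∈ Algebra.adjoin R {γ} := by
  obtain ⟨θ, hθ⟩ := Field.exists_primitive_element k M
  have halg : IsAlgebraic R θ := (IsFractionRing.isAlgebraic_iff R k M).2
    (Algebra.IsAlgebraic.isAlgebraic θ)
  obtain ⟨y, hy, hint⟩ := halg.exists_integral_multiple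
  have hyk : algebraMap R k y ≠ 0 := by
    rw [Ne, map_eq_zero_iff _ (IsFractionRing.injective R k)]
    exact hy
  have hyM : algebraMap k M (algebraMap R k y) ≠ 0 := (_root_.map_ne_zero _).2 hyk
  have e : (y • θ : M) = algebraMap k M (algebraMap R k y) * θ := by
    rw [Algebra.smul_def, IsScalarTower.algebraMap_apply R k M]
  have hkint : IsIntegral k (y • θ) := Algebra.IsIntegral.isIntegral _
  have htop : Algebra.adjoin k {y • θ} = ⊤ := by
    have h1 : IntermediateField.adjoin k {y • θ} = ⊤ := by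
      rw [eq_top_iff, ← hθ, IntermediateField.adjoin_simple_le_iff]
      have h3 : θ = algebraMap k M (algebraMap R k y)⁻¹ * (y • θ) := by
        rw [e, ← mul_assoc, ← map_mul, inv_mul_cancel₀ hyk, map_one, one_mul]
      have h4 := (IntermediateField.adjoin k {y • θ}).mul_mem
        ((IntermediateField.adjoin k {y • θ}).algebraMap_mem (algebraMap R k y)⁻¹)
        (IntermediateField.mem_adjoin_simple_self k (y • θ))
      rw [← h3] at h4
      exact h4
    rw [← IntermediateField.adjoin_simple_toSubalgebra_of_isAlgebraic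
      (Algebra.IsAlgebraic.isAlgebraic _), h1]
    rfl
  obtain ⟨B, hB⟩ : ∃ B : PowerBasis k M, B.gen = y • θ :=
    ⟨PowerBasis.ofAdjoinEqTop' hkint htop, PowerBasis.ofAdjoinEqTop'_gen _ _⟩
  have hBint : IsIntegral R B.gen := by rw [hB]; exact hint
  have hd0 : Algebra.discr k B.basis ≠ 0 := Algebra.discr_not_zero_of_basis k B.basis
  have hdi : IsIntegral R (Algebra.discr k B.basis) := Algebra.discr_isIntegral k (fun i => by
    rw [PowerBasis.coe_basis]
    exact hBint.pow _)
  obtain ⟨Δ, hΔ⟩ := IsIntegrallyClosed.isIntegral_iff.1 hdi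
  refine ⟨y • θ, Δ, hint, ?_, fun z hz => ?_⟩
  · rintro rfl
    rw [map_zero] at hΔ
    exact hd0 hΔ.symm
  · have h5 := Algebra.discr_mul_isIntegral_mem_adjoin k hBint hz
    rw [← hΔ, hB] at h5
    have h6 : algebraMap R M Δ * z = algebraMap R k Δ • z := by
      rw [Algebra.smul_def (algebraMap R k Δ) z, ← IsScalarTower.algebraMap_apply]
    rw [h6]
    exact h5

variable {R M}

include k in
/-- The ideal above. -/
theorem exists_above {γ : M} {Δ : R} (hγ : IsIntegral R γ)
    (hΔ : ∀ z : M, IsIntegral R z → algebraMap R M Δ * z ∈ Algebra.adjoin R {γ})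
    {p : Ideal R} (hp : p.IsMaximal) (hΔp : Δ ∉ p) {r : R} (hr : (minpoly R γ).eval r ∈ p) :
    ∃ Q : Ideal (integralClosure R M), Q.IsMaximal ∧
      Q.comap (algebraMap R (integralClosure R M)) = p ∧
      ∀ z : integralClosure R M, ∃ x : R, z - algebraMap R _ x ∈ Q := by
  haveI : IsScalarTower R k M := inferInstance
  letI : Field (R ⧸ p) := Ideal.Quotient.field p
  haveI : FaithfulSMul R M := (faithfulSMul_iff_algebraMap_injective R M).2 (by
    rw [IsScalarTower.algebraMap_eq R k M]
    exact (algebraMap k M).injective.comp (IsFractionRing.injective R k))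
  haveI : Module.IsTorsionFree R M := Module.isTorsionFree_iff_faithfulSMul.2 inferInstance
  -- the homomorphism
  let ψ0 : AdjoinRoot (minpoly R γ) →+* (R ⧸ p) := AdjoinRoot.lift (Ideal.Quotient.mk p)
    (Ideal.Quotient.mk p r) (by
      rw [Polynomial.eval₂_at_apply]
      exact Ideal.Quotient.eq_zero_iff_mem.2 hr)
  let ψ : Algebra.adjoin R {γ} →+* (R ⧸ p) := ψ0.comp (minpoly.equivAdjoin hγ).symm.toRingEquiv.toRingHom
  have hψ : ∀ x : R, ψ (algebraMap R _ x) = Ideal.Quotient.mk p x := by
    intro x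
    show ψ0 ((minpoly.equivAdjoin hγ).symm (algebraMap R _ x)) = _
    rw [AlgEquiv.commutes]
    exact AdjoinRoot.lift_of _
  have hsurj : Function.Surjective ψ := fun x => by
    obtain ⟨x, rfl⟩ := Ideal.Quotient.mk_surjective x
    exact ⟨_, hψ x⟩
  haveI : (RingHom.ker ψ).IsMaximal := RingHom.ker_isMaximal_of_surjective ψ hsurj
  have hle : Algebra.adjoin R {γ} ≤ integralClosure R M := by
    rw [Algebra.adjoin_le_iff]
    rintro _ rfl
    exact hγ
  letI : Algebra (Algebra.adjoin R {γ}) (integralClosure R M) :=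
    (Subalgebra.inclusion hle).toRingHom.toAlgebra
  have hincl : ∀ x, ((algebraMap (Algebra.adjoin R {γ}) (integralClosure R M) x :
    integralClosure R M) : M) = x := fun x => rfl
  haveI : IsScalarTower R (Algebra.adjoin R {γ}) (integralClosure R M) :=
    IsScalarTower.of_algebraMap_eq fun x => Subtype.ext rfl
  haveI : Algebra.IsIntegral (Algebra.adjoin R {γ}) (integralClosure R M) :=
    Algebra.IsIntegral.tower_top R
  obtain ⟨Q, hQ, hQc⟩ := Ideal.exists_ideal_over_maximal_of_isIntegral
    (S := integralClosure R M) (RingHom.ker ψ) (by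
      intro x hx
      have h1 : algebraMap (Algebra.adjoin R {γ}) (integralClosure R M) x = 0 := hx
      have h2 : x = 0 := Subtype.ext (by rw [← hincl x, h1]; rfl)
      rw [h2]
      exact Ideal.zero_mem _)
  have hQR : Q.comap (algebraMap R (integralClosure R M)) = p := by
    rw [IsScalarTower.algebraMap_eq R (Algebra.adjoin R {γ}) (integralClosure R M),
      ← Ideal.comap_comap, hQc]
    ext x
    rw [Ideal.mem_comap, RingHom.mem_ker, hψ, Ideal.Quotient.eq_zero_iff_mem]
  refine ⟨Q, hQ, hQR, fun z => ?_⟩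
  obtain ⟨δ, hδ⟩ : ∃ δ : R, 1 - δ * Δ ∈ p := by
    obtain ⟨d, hd⟩ := Ideal.Quotient.mk_surjective ((Ideal.Quotient.mk p Δ)⁻¹)
    refine ⟨d, ?_⟩
    rw [← Ideal.Quotient.eq_zero_iff_mem, map_sub, map_mul, hd, map_one, inv_mul_cancel₀, sub_self]
    rw [Ne, Ideal.Quotient.eq_zero_iff_mem]
    exact hΔp
  have hz := hΔ z z.2
  obtain ⟨h, hh⟩ : ∃ h : Algebra.adjoin R {γ}, (h : M) = algebraMap R M Δ * z := ⟨⟨_, hz⟩, rfl⟩
  obtain ⟨x, hx⟩ := Ideal.Quotient.mk_surjective (ψ (algebraMap R _ δ * h))
  refine ⟨x, ?_⟩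
  have h1 : algebraMap (Algebra.adjoin R {γ}) (integralClosure R M)
      (algebraMap R _ δ * h - algebraMap R _ x) ∈ Q := by
    have h2 : (algebraMap R (Algebra.adjoin R {γ}) δ * h - algebraMap R _ x) ∈
        Q.comap (algebraMap (Algebra.adjoin R {γ}) (integralClosure R M)) := by
      rw [hQc, RingHom.mem_ker, map_sub, hψ x, ← hx, sub_self]
    exact h2
  have h3 : algebraMap R (integralClosure R M) (1 - δ * Δ) ∈ Q := by
    have h4 : (1 - δ * Δ) ∈ Q.comap (algebraMap R (integralClosure R M)) := by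
      rw [hQR]
      exact hδ
    exact h4
  have h5 : z - algebraMap R (integralClosure R M) x = algebraMap R (integralClosure R M)
      (1 - δ * Δ) * z + algebraMap (Algebra.adjoin R {γ}) (integralClosure R M)
      (algebraMap R _ δ * h - algebraMap R _ x) := by
    apply Subtype.ext
    show (z : M) - algebraMap R M x = algebraMap R M (1 - δ * Δ) * (z : M) +
      (algebraMap R M δ * (h : M) - algebraMap R M x)
    rw [hh, map_sub, map_one, map_mul]
    ring
  rw [h5]
  exact Q.add_mem (Q.mul_mem_right _ h3) h1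

end gen

section split

open Pool.Agent.X243.Gen Pool.Agent.K9h16.QT

variable (R k M : Type) [CommRing R] [IsDomain R] [IsIntegrallyClosed R] [Algebra.FiniteType ℤ R]
  [Field k] [Algebra R k] [IsFractionRing R k] [Field M] [Algebra k M] [Algebra R M]
  [IsScalarTower R k M] [FiniteDimensional k M] [Algebra.IsSeparable k M]

/-- The maximal ideals with a maximal ideal above with the same residue field. -/
def Zs (R M : Type) [CommRing R] [Field M] [Algebra R M] (B : ℕ) : Set (Ideal R) :=
  {p | p ∈ Zg R B ∧ ∃ Q : Ideal (integralClosure R M), Q.IsMaximal ∧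
    Q.comap (algebraMap R (integralClosure R M)) = p ∧
    ∀ z : integralClosure R M, ∃ x : R, z - algebraMap R _ x ∈ Q}

include k in
theorem Zs_inf (hR : ¬ IsField R) (h2 : (2 : R) ≠ 0) (B : ℕ) : (Zs R M B).Infinite := by
  haveI : FaithfulSMul R M := (faithfulSMul_iff_algebraMap_injective R M).2 (by
    rw [IsScalarTower.algebraMap_eq R k M]
    exact (algebraMap k M).injective.comp (IsFractionRing.injective R k))
  obtain ⟨γ, Δ, hγ, hΔ0, hΔ⟩ := exists_gen R k M
  refine (Zr_inf hR h2 B (g := minpoly R γ) (minpoly.natDegree_pos hγ) hΔ0).mono ?_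
  rintro p ⟨h1, h3, r, hr⟩
  exact ⟨h1, exists_above (k := k) hγ hΔ h1.1 h3 hr⟩

include k in
theorem densM (hR : ¬ IsField R) (h2 : (2 : R) ≠ 0) {m : ℕ} (hm : 3 ≤ m) :
    ∃ B : ℕ, ∀ (η : ℝ), 0 < η → ∃ I : Ideal R, Finite (R ⧸ I) ∧
      (1 - η) * (Nat.card (R ⧸ I) : ℝ) ^ (Fintype.card (Fin (m + 1) ⊕ Fin (2 * m + 1))) ≤
      (({x : Fin (m + 1) ⊕ Fin (2 * m + 1) → R ⧸ I |
        ∀ y : Fin (m + 1) ⊕ Fin (2 * m + 1) → R, (∀ j, Ideal.Quotient.mk I (y j) = x j) →
          ∀ s : Iq, ∃ Q ∈ Zg (integralClosure R M) B,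
          (fun j => Ideal.Quotient.mk Q (algebraMap R (integralClosure R M) (y j))) ∈
            Gq m s (integralClosure R M ⧸ Q)}.ncard : ℕ) : ℝ) := by
  haveI : IsNoetherianRing R := Algebra.FiniteType.isNoetherianRing ℤ R
  haveI : IsIntegrallyClosed (integralClosure R M) :=
    integralClosure.isIntegrallyClosedOfFiniteExtension k
  haveI : IsNoetherianRing (integralClosure R M) :=
    IsIntegralClosure.isNoetherianRing R k M (integralClosure R M)
  obtain ⟨B, c, hc, h⟩ := Gq_dens hm
  refine ⟨B, fun η hη => ?_⟩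
  have hQ : ∀ p ∈ Zs R M B, ∃ Q : Ideal (integralClosure R M), Q.IsMaximal ∧
    Q.comap (algebraMap R (integralClosure R M)) = p ∧
    ∀ z : integralClosure R M, ∃ x : R, z - algebraMap R (integralClosure R M) x ∈ Q :=
    fun p hp => hp.2
  choose! Q hQm hQc hQs using hQ
  -- the bijections of the residue fields
  have hbij : ∀ p ∈ Zs R M B, ∃ f : (R ⧸ p) ≃ (integralClosure R M ⧸ Q p),
      ∀ x : R, f (Ideal.Quotient.mk p x) = Ideal.Quotient.mk (Q p) (algebraMap R (integralClosure R M) x) := by
    intro p hp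
    have hle : p ≤ (Q p).comap (algebraMap R (integralClosure R M)) := (hQc p hp).ge
    let f := Ideal.quotientMap (Q p) (algebraMap R (integralClosure R M)) hle
    have hf : Function.Bijective f := by
      constructor
      · exact Ideal.quotientMap_injective' (hQc p hp).le
      · intro z
        obtain ⟨z, rfl⟩ := Ideal.Quotient.mk_surjective z
        obtain ⟨x, hx⟩ := hQs p hp z
        refine ⟨Ideal.Quotient.mk p x, ?_⟩
        rw [Ideal.quotientMap_mk]
        exact (Ideal.Quotient.eq.2 hx).symm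
    refine ⟨Equiv.ofBijective f hf, fun x => ?_⟩
    show f (Ideal.Quotient.mk p x) = _
    exact Ideal.quotientMap_mk
  have hZ : ∀ p ∈ Zs R M B, Q p ∈ Zg (integralClosure R M) B := by
    intro p hp
    obtain ⟨f, hf⟩ := hbij p hp
    haveI := hp.1.2.1
    refine ⟨hQm p hp, Finite.of_equiv _ f, ?_, fun h2' => ?_⟩
    · rw [← Nat.card_congr f]
      exact hp.1.2.2.1
    · apply hp.1.2.2.2
      rw [← hQc p hp, Ideal.mem_comap, map_ofNat]
      exact h2'
  obtain ⟨I, hI, hd⟩ := densityG (Zs R M B) (Zs_inf R k M hR h2 B) (fun p hp => hp.1.1)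
    (fun p hp => hp.1.2.1)
    (fun (s : Iq) p => {x : Fin (m + 1) ⊕ Fin (2 * m + 1) → R ⧸ p |
      ∀ y : Fin (m + 1) ⊕ Fin (2 * m + 1) → R, (∀ j, Ideal.Quotient.mk p (y j) = x j) →
      (fun j => Ideal.Quotient.mk (Q p) (algebraMap R (integralClosure R M) (y j))) ∈
            Gq m s (integralClosure R M ⧸ Q p)}) hc (by
      intro s p hp
      obtain ⟨f, hf⟩ := hbij p hp
      have hq := hZ p hp
      haveI := hq.1
      letI : Field (integralClosure R M ⧸ Q p) := Ideal.Quotient.field (Q p)
      haveI : Finite (integralClosure R M ⧸ Q p) := hq.2.1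
      haveI : Finite (R ⧸ p) := hp.1.2.1
      have h1 := h (integralClosure R M ⧸ Q p) (Zg_two hq) hq.2.2.1 s
      rw [Nat.card_congr f]
      refine h1.trans ?_
      let e : (Fin (m + 1) ⊕ Fin (2 * m + 1) → R ⧸ p) ≃
        (Fin (m + 1) ⊕ Fin (2 * m + 1) → integralClosure R M ⧸ Q p) :=
        Equiv.piCongrRight (fun _ => f)
      have h3 : (Gq m s (integralClosure R M ⧸ Q p)).ncard =
          (e ⁻¹' (Gq m s (integralClosure R M ⧸ Q p))).ncard :=
        (Set.ncard_preimage_of_injective_subset_range (Equiv.injective _) (by simp)).symm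
      rw [h3]
      have h4 : ∀ S T : Set (Fin (m + 1) ⊕ Fin (2 * m + 1) → R ⧸ p), S ⊆ T →
          ((S.ncard : ℕ) : ℝ) ≤ ((T.ncard : ℕ) : ℝ) := fun S T h => by
        exact_mod_cast Set.ncard_le_ncard h (Set.toFinite _)
      apply h4
      intro x hx y hy
      have h5 : e x = fun j => Ideal.Quotient.mk (Q p) (algebraMap R (integralClosure R M) (y j)) := by
        funext j
        show f (x j) = _
        rw [← hy j, hf]
      rw [← h5]
      exact hx) η hη
  refine ⟨I, hI, hd.trans ?_⟩
  have h4 : ∀ S T : Set (Fin (m + 1) ⊕ Fin (2 * m + 1) → R ⧸ I), S ⊆ T →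
      ((S.ncard : ℕ) : ℝ) ≤ ((T.ncard : ℕ) : ℝ) := fun S T h => by
    exact_mod_cast Set.ncard_le_ncard h (Set.toFinite _)
  apply h4
  intro x hx y hy s
  obtain ⟨p, hp, h5⟩ := hx s
  exact ⟨Q p, hZ p hp, h5 y hy y (fun j => rfl)⟩

variable {R k}

/-- The group theoretic conditions over the extension. -/
theorem gc_ext (h2 : (2 : R) ≠ 0) {m B : ℕ} (hm : 3 ≤ m)
    {y : Fin (m + 1) ⊕ Fin (2 * m + 1) → R}
    (h : ∀ s : Iq, ∃ Q ∈ Zg (integralClosure R M) B,
          (fun j => Ideal.Quotient.mk Q (algebraMap R (integralClosure R M) (y j))) ∈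
            Gq m s (integralClosure R M ⧸ Q)) (a b : k[X])
    (ha : a = (Pool.Agent.Y160.T3.bF (y ∘ Sum.inl)).map (algebraMap R k))
    (hb : b = (Pool.Agent.Y160.T3.bF (y ∘ Sum.inr)).map (algebraMap R k)) :
    FF (2 * m) (b.map (algebraMap k M)) ∧
      FF (2 * m) ((a.map (algebraMap k M)) ^ 2 - 4 * b.map (algebraMap k M)) ∧
      GC (a.map (algebraMap k M)) (b.map (algebraMap k M)) := by
  haveI : IsNoetherianRing R := Algebra.FiniteType.isNoetherianRing ℤ R
  haveI : IsFractionRing (integralClosure R M) M :=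
    integralClosure.isFractionRing_of_finite_extension k M
  haveI : IsIntegrallyClosed (integralClosure R M) :=
    integralClosure.isIntegrallyClosedOfFiniteExtension k
  haveI : IsNoetherianRing (integralClosure R M) :=
    IsIntegralClosure.isNoetherianRing R k M (integralClosure R M)
  have h2' : (2 : integralClosure R M) ≠ 0 := by
    intro h0
    apply h2
    apply IsFractionRing.injective R k
    apply (algebraMap k M).injective
    rw [map_ofNat, map_ofNat, map_zero, map_zero]
    have h3 := congrArg (algebraMap (integralClosure R M) M) h0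
    rwa [map_ofNat, map_zero] at h3
  have key : ∀ {r : ℕ} (c : Fin (r + 1) → R), ((Pool.Agent.Y160.T3.bF c).map (algebraMap R k)).map
      (algebraMap k M) = (Pool.Agent.Y160.T3.bF (fun j => algebraMap R (integralClosure R M) (c j))).map
        (algebraMap (integralClosure R M) M) := by
    intro r c
    rw [Pool.Agent.X243.Tate.bF_map, Pool.Agent.X243.Tate.bF_map, Pool.Agent.X243.Tate.bF_map]
    congr 1
    funext j
    show algebraMap k M (algebraMap R k (c j)) = algebraMap _ M (algebraMap R _ (c j))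
    rw [← IsScalarTower.algebraMap_apply, ← IsScalarTower.algebraMap_apply]
  refine gc_all (R := integralClosure R M) (k := M)
    (y := fun j => algebraMap R (integralClosure R M) (y j)) h2' hm h _ _ ?_ ?_
  · rw [ha, key]
    rfl
  · rw [hb, key]
    rfl

end split

end Pool.Agent.K9h16.MT
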